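import Pool.Agent.U724.JM.Desc

/-!
# The hard Lefschetz theorem determines the commutator
-/

set_option autoImplicit false
set_option linter.unusedSectionVars false

open CategoryTheory Limits MonoidalCategory Module
open Pool.Agent.U724.PH Pool.Agent.U724.CH

namespace Pool.Agent.U724.JM

section Alg

variable {B : Type*} [Ring B] [Algebra ℚ B]

/-- If `[E, L] = W`, `[W, E] = 2 E` and `[W, Z] = -2 Z`, `[[E, Z], E] = 2 E`, then `[E, Z] = W`. -/
lemma comm_eq {E W L Z : B} {N : ℕ} (hN : E ^ N = 0) (h1 : E * L - L * E = W)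
    (h2 : W * E = E * W + 2 * E) (h3 : (E * Z - Z * E) * E = E * (E * Z - Z * E) + 2 * E)
    (h4 : W * Z = Z * W - 2 * Z) : E * Z - Z * E = W := by
  obtain ⟨a, ha, aN⟩ : ∃ a : Module.End ℚ B, (∀ x, a x = E * x - x * E) ∧ IsNilpotent a := by
    refine ⟨LinearMap.mulLeft ℚ E - LinearMap.mulRight ℚ E, fun x => rfl, ?_⟩
    refine Commute.isNilpotent_sub (LinearMap.commute_mulLeft_right E E) ?_ ?_
    · exact ⟨N, by rw [LinearMap.pow_mulLeft, hN, LinearMap.mulLeft_zero_eq_zero]⟩
    · exact ⟨N, by rw [LinearMap.pow_mulRight, hN, LinearMap.mulRight_zero_eq_zero]⟩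
  obtain ⟨l, hl⟩ : ∃ l : Module.End ℚ B, ∀ x, l x = L * x - x * L :=
    ⟨LinearMap.mulLeft ℚ L - LinearMap.mulRight ℚ L, fun x => rfl⟩
  obtain ⟨w, hw⟩ : ∃ w : Module.End ℚ B, ∀ x, w x = W * x - x * W :=
    ⟨LinearMap.mulLeft ℚ W - LinearMap.mulRight ℚ W, fun x => rfl⟩
  have e1 : a * l = l * a + w := by
    ext x
    rw [Module.End.mul_apply, LinearMap.add_apply, Module.End.mul_apply, ha, hl, hl, ha, hw]
    linear_combination (norm := noncomm_ring) h1 * x - x * h1
  have e2 : w * a = a * w + 2 * a := by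
    ext x
    have h5 : (2 * a : Module.End ℚ B) = a + a := two_mul a
    rw [h5, Module.End.mul_apply, LinearMap.add_apply, LinearMap.add_apply, Module.End.mul_apply,
      hw, ha, ha, hw]
    linear_combination (norm := noncomm_ring) h2 * x - x * h2
  obtain ⟨M, hM⟩ := aN
  obtain ⟨D, hD⟩ : ∃ D, D = E * Z - Z * E - W := ⟨_, rfl⟩
  have h5 : a (Z - L) = D := by
    rw [ha, hD, ← h1]
    noncomm_ring
  have h6 : a D = 0 := by
    rw [ha, hD]
    linear_combination (norm := noncomm_ring) h2 - h3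
  have h7 : w D = 0 := by
    rw [hw, hD]
    linear_combination (norm := noncomm_ring) h2 * Z + E * h4 - h4 * E - Z * h2
  have h8 : a ^ (1 + 1) • (Z - L) = 0 := by
    rw [pow_succ, pow_one]
    change a (a (Z - L)) = 0
    rw [h5, h6]
  have h9 := prod_kills e1 e2 hM (k := 1) h8
  rw [pow_one] at h9
  have h10 : a • (Z - L) = D := h5
  rw [h10] at h9
  have h11 : w • D = (0 : ℤ) • D := by
    rw [zero_smul]
    exact h7
  rw [act_poly h11, Module.algebraMap_end_eq_smul_id] at h9
  set c := (∏ i ∈ Finset.Ico 1 M, (Polynomial.X - Polynomial.C (i : ℚ))).eval ((0 : ℤ) : ℚ) with hc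
  have hc0 : c ≠ 0 := by
    rw [hc, Polynomial.eval_prod, Finset.prod_ne_zero_iff]
    intro i hi
    rw [Finset.mem_Ico] at hi
    have : (i : ℚ) ≠ 0 := by
      have : i ≠ 0 := by omega
      exact_mod_cast this
    simpa using this
  have h12 : c • D = 0 := h9
  have h13 : D = 0 := (smul_eq_zero.1 h12).resolve_left hc0
  rw [hD] at h13
  exact sub_eq_zero.1 h13

end Alg

section Cat

universe v u w

variable {C : Type u} [Category.{v} C] [Preadditive C] [Linear ℚ C] [MonoidalCategory C]
  [MonoidalPreadditive C] [MonoidalLinear ℚ C] [SymmetricCategory C]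
  {K : Type w} [Field K] [CharZero K] {F : C ⥤ ModuleCat.{w} K} [F.Monoidal] [F.Additive]
  {T : C} [ExactPairing T T]

/-- The criterion for a solution which lowers the weight by two. -/
theorem low_iff (hs : SymPair T) {e : End T} (he : IsAdj (e : T ⟶ T) e) {N : ℕ}
    (hN : e ^ N = 0) {W : F.obj T ⟶ F.obj T} (hW : IsWt F W) {L : Module.End K (F.obj T)}
    (h1 : actHom F e * L - L * actHom F e = W.hom)
    (h2 : W.hom * actHom F e = actHom F e * W.hom + 2 * actHom F e) :
    (∃ z : End T, (e * z - z * e) * e = e * (e * z - z * e) + 2 * e ∧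
      W.hom * actHom F z = actHom F z * W.hom - 2 * actHom F z) ↔ ∃ π f, LefCK F W e N π f := by
  rw [← solves_iff hs he hN hW]
  constructor
  · rintro ⟨z, h3, h4⟩
    refine ⟨z, h3, ?_⟩
    let _ : Algebra ℚ (Module.End K (F.obj T)) :=
      Algebra.compHom (Module.End K (F.obj T)) (algebraMap ℚ K)
    have hN' : actHom F e ^ N = 0 := by rw [← map_pow, hN, map_zero]
    have h5 := congrArg (actHom F) h3
    simp only [map_mul, map_sub, map_add, map_ofNat] at h5
    have h6 := comm_eq hN' h1 h2 h5 h4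
    have h7 : actHom F (e * z - z * e) = W.hom := by
      rw [map_sub, map_mul, map_mul, h6]
    exact ModuleCat.hom_ext h7
  · rintro ⟨z, h3, h4⟩
    obtain ⟨h, hh⟩ : ∃ h : End T, h = e * z - z * e := ⟨_, rfl⟩
    have h5 : e * z = z * e + h := by rw [hh]; abel
    have h6 : h * e = e * h + 2 * e := by rw [hh]; exact h3
    obtain ⟨f, h7, h8⟩ := morozov hN h5 h6
    have h9 : e * f - f * e = h := by rw [h7]; abel
    refine ⟨f, by rw [h9]; exact h6, ?_⟩
    have h10 : actHom F h = W.hom := by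
      rw [hh]
      exact congrArg ModuleCat.Hom.hom h4
    have h11 := congrArg (actHom F) h8
    simp only [map_mul, map_sub, map_ofNat, h10] at h11
    exact h11

end Cat

end Pool.Agent.U724.JM
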