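import Pool.Agent.U724.JM.Uniq

/-!
# Decompositions of Lefschetz type are given by `sl₂`-triples
-/

set_option autoImplicit false

open Polynomial

namespace Pool.Agent.U724.JM

variable {A : Type*} [Ring A] [Algebra ℚ A] {e f : A} {N : ℕ} {π : ℤ → A}

/-- A family of orthogonal projectors which are raised by `e` and lowered by `f`. -/
structure Dcm (e f : A) (N : ℕ) (π : ℤ → A) : Prop where
  mul : ∀ i j, π i * π j = if i = j then π i else 0
  sum : ∑ i ∈ Finset.Ioo (-N : ℤ) N, π i = 1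
  raise : ∀ i, e * π i = π (i + 2) * e
  lower : ∀ i, f * π (i + 2) = π i * f
  lie : e * f - f * e = ∑ i ∈ Finset.Ioo (-N : ℤ) N, (i : A) * π i

lemma Dcm.out (D : Dcm e f N π) {m : ℤ} (hm : m ∉ Finset.Ioo (-N : ℤ) N) : π m = 0 := by
  rw [← mul_one (π m), ← D.sum, Finset.mul_sum]
  refine Finset.sum_eq_zero fun i hi => ?_
  rw [D.mul, if_neg]
  rintro rfl
  exact hm hi

lemma Dcm.mul_h (D : Dcm e f N π) (m : ℤ) :
    π m * (∑ i ∈ Finset.Ioo (-N : ℤ) N, (i : A) * π i) = (m : A) * π m := by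
  by_cases hm : m ∈ Finset.Ioo (-N : ℤ) N
  · rw [Finset.mul_sum, Finset.sum_eq_single_of_mem m hm]
    · rw [← mul_assoc, ← (Int.cast_commute m (π m)).eq, mul_assoc, D.mul, if_pos rfl]
    · intro i _ hi
      rw [← mul_assoc, ← (Int.cast_commute i (π m)).eq, mul_assoc, D.mul,
        if_neg (Ne.symm hi), mul_zero]
  · rw [D.out hm, zero_mul, mul_zero]

lemma Dcm.h_mul (D : Dcm e f N π) (m : ℤ) :
    (∑ i ∈ Finset.Ioo (-N : ℤ) N, (i : A) * π i) * π m = (m : A) * π m := by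
  by_cases hm : m ∈ Finset.Ioo (-N : ℤ) N
  · rw [Finset.sum_mul, Finset.sum_eq_single_of_mem m hm]
    · rw [mul_assoc, D.mul, if_pos rfl]
    · intro i _ hi
      rw [mul_assoc, D.mul, if_neg hi, mul_zero]
  · rw [D.out hm, mul_zero, mul_zero]

lemma Dcm.expand (D : Dcm e f N π) (x : A) : x = ∑ i ∈ Finset.Ioo (-N : ℤ) N, π i * x := by
  rw [← Finset.sum_mul, D.sum, one_mul]

lemma Dcm.comm (D : Dcm e f N π) {x : A} {c : ℤ} (hx : ∀ i, x * π i = π (i + c) * x) :
    (∑ i ∈ Finset.Ioo (-N : ℤ) N, (i : A) * π i) * x =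
      x * (∑ i ∈ Finset.Ioo (-N : ℤ) N, (i : A) * π i) + c * x := by
  rw [D.expand (x * ∑ i ∈ Finset.Ioo (-N : ℤ) N, (i : A) * π i), D.expand ((c : A) * x),
    Finset.sum_mul, ← Finset.sum_add_distrib]
  refine Finset.sum_congr rfl fun i _ => ?_
  have h2 := hx (i - c)
  rw [show i - c + c = i by ring] at h2
  rw [← mul_assoc (π i) x, ← h2, mul_assoc x, D.mul_h, ← mul_assoc x,
    ← (Int.cast_commute (i - c) x).eq, mul_assoc ((i - c : ℤ) : A), h2, mul_assoc]
  have h3 : π i * ((c : A) * x) = (c : A) * (π i * x) := by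
    rw [← mul_assoc, ← (Int.cast_commute c (π i)).eq, mul_assoc]
  rw [h3]
  push_cast
  noncomm_ring

lemma Dcm.triple (D : Dcm e f N π) (hN : e ^ N = 0) :
    Triple e f (∑ i ∈ Finset.Ioo (-N : ℤ) N, (i : A) * π i) N where
  ef := by rw [← D.lie]; abel
  he := by
    have h1 := D.comm (c := 2) D.raise
    push_cast at h1
    exact h1
  hf := by
    have h1 := D.comm (x := f) (c := -2) (fun i => by
      have h2 := D.lower (i + -2)
      rw [show i + -2 + 2 = i by ring] at h2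
      exact h2)
    push_cast at h1
    rw [h1]
    noncomm_ring
  nil := hN

lemma Dcm.eq_prj (D : Dcm e f N π) (hN : e ^ N = 0) (i : ℤ) :
    π i = prj (∑ i ∈ Finset.Ioo (-N : ℤ) N, (i : A) * π i) N i := by
  have T := D.triple hN
  have h1 : ∀ j l, prj (∑ i ∈ Finset.Ioo (-N : ℤ) N, (i : A) * π i) N j * π l =
      if j = l then π l else 0 := by
    intro j l
    refine T.prj_act (V := A) (v := π l) (i := l) ?_ j
    rw [smul_eq_mul, D.h_mul, zsmul_eq_mul]
  have h2 : prj (∑ i ∈ Finset.Ioo (-N : ℤ) N, (i : A) * π i) N i =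
      ∑ l ∈ Finset.Ioo (-N : ℤ) N, prj (∑ i ∈ Finset.Ioo (-N : ℤ) N, (i : A) * π i) N i * π l := by
    rw [← Finset.mul_sum, D.sum, mul_one]
  by_cases hi : i ∈ Finset.Ioo (-N : ℤ) N
  · rw [h2, Finset.sum_congr rfl fun l _ => h1 i l, Finset.sum_ite_eq, if_pos hi]
  · rw [D.out hi, T.prj_out hi]

/-- Two decompositions of Lefschetz type for the same `e` are unipotently conjugate. -/
theorem Dcm.conj {f' : A} {π' : ℤ → A} (D : Dcm e f N π) (D' : Dcm e f' N π')
    (hN : e ^ N = 0) : ∃ ν : A, (∀ j i, j ≤ i → π j * ν * π i = 0) ∧ ν ^ (2 * N) = 0 ∧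
      (1 + ν) * e = e * (1 + ν) ∧ (∀ i, (1 + ν) * π i = π' i * (1 + ν)) ∧
      ∀ j i, j < i → π' j * π i = 0 := by
  have T := D.triple hN
  obtain ⟨ν, h1, h2, h3, h4⟩ := JM.conj T (D'.triple hN)
  have h5 : ∀ i, (1 + ν) * π i = π' i * (1 + ν) := by
    intro i
    rw [D.eq_prj hN, D'.eq_prj hN]
    exact h4 i
  refine ⟨ν, fun j i hij => ?_, h2, h3, h5, fun j i hij => ?_⟩
  · rw [D.eq_prj hN i, D.eq_prj hN j]
    exact h1 j i (by omega)
  · -- the inverse of `1 + ν`
    let v : A := ∑ k ∈ Finset.range (2 * N), (-ν) ^ k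
    have hv : (1 + ν) * v = 1 := by
      have h6 := mul_geom_sum (-ν) (2 * N)
      have h7 : (-ν) ^ (2 * N) = 0 := by
        rw [neg_pow, h2, mul_zero]
      rw [h7] at h6
      have h8 : (1 + ν) * v = -((-ν - 1) * v) := by noncomm_ring
      rw [h8, h6]
      noncomm_ring
    have hv0 : Up (∑ i ∈ Finset.Ioo (-N : ℤ) N, (i : A) * π i) N 0 v := by
      refine Up.sum _ fun k _ => ?_
      have h6 := ((Up.zero (h := ∑ i ∈ Finset.Ioo (-N : ℤ) N, (i : A) * π i) (N := N) 1).sub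
        h1).mono (n := 0) (by norm_num)
      rw [zero_sub] at h6
      have h7 := h6.pow T k
      rwa [mul_zero] at h7
    have h6 : π' j = (1 + ν) * π j * v := by
      rw [h5, mul_assoc, hv, mul_one]
    have h7 := hv0 j i (by omega)
    rw [← D.eq_prj hN i, ← D.eq_prj hN j] at h7
    rw [h6, mul_assoc, mul_assoc, ← mul_assoc (π j), h7, mul_zero]

end Pool.Agent.U724.JM
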