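import Pool.Agent.U724.JM.Prd

/-!
# Decompositions of Lefschetz type and solutions, without self-duality
-/

set_option autoImplicit false
set_option linter.unusedSectionVars false

open CategoryTheory Limits MonoidalCategory Module
open Pool.Agent.U724.PH Pool.Agent.U724.CH

namespace Pool.Agent.U724.JM

universe v u w t

variable {C : Type u} [Category.{v} C] [Preadditive C] [Linear ℚ C] [MonoidalCategory C]
  [MonoidalPreadditive C] [MonoidalLinear ℚ C] [SymmetricCategory C]
  {K : Type w} [Field K] [CharZero K] {F : C ⥤ ModuleCat.{w} K} [F.Monoidal] [F.Additive]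
  {T : C} {e z f : End T} {W : F.obj T ⟶ F.obj T} {N : ℕ} {π : ℤ → End T}

/-- A solution gives a decomposition. -/
theorem Solves.exists_dcm (h : Solves F e z W) (hN : e ^ N = 0) :
    ∃ (π : ℤ → End T) (f : End T), Dcm e f N π ∧ ∀ (i j : ℤ) (v : F.obj T),
      W.hom v = (j : K) • v → (F.map (π i : T ⟶ T)).hom v = if i = j then v else 0 := by
  obtain ⟨c, hc⟩ : ∃ c : End T, c = e * z - z * e := ⟨_, rfl⟩
  have h1 : e * z = z * e + c := by rw [hc]; abel
  have h2 : c * e = e * c + 2 * e := by rw [hc]; exact h.eq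
  obtain ⟨f, h3, h4⟩ := morozov hN h1 h2
  have tr : Triple e f c N := ⟨h3, h2, h4, hN⟩
  refine ⟨fun i => prj c N i, f, ⟨tr.prj_mul, tr.prj_sum, fun i => ?_, fun i => ?_, ?_⟩,
    fun i j v hv => real_prj F tr (by rw [hc]; exact h.real) i j v hv⟩
  · refine tr.prj_semi (c := 2) ?_ i
    rw [h2]
    push_cast
    noncomm_ring
  · have h5 := tr.prj_semi (x := f) (c := -2) (by rw [h4]; push_cast; noncomm_ring) (i + 2)
    rw [show i + 2 + -2 = i by ring] at h5
    exact h5
  · rw [tr.sum_smul, h3]
    abel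

/-- A decomposition gives a solution. -/
theorem Dcm.solves (D : Dcm e f N π) (hr : ∀ (i j : ℤ) (v : F.obj T),
      W.hom v = (j : K) • v → (F.map (π i : T ⟶ T)).hom v = if i = j then v else 0)
    (hW : ⨆ i : ℤ, Module.End.eigenspace W.hom (i : K) = ⊤) : Solves F e f W := by
  constructor
  · rw [D.lie]
    have h1 := D.comm (c := 2) D.raise
    push_cast at h1
    exact h1
  · rw [D.lie]
    have h1 : ∀ v : F.obj T, ∀ j : ℤ, W.hom v = (j : K) • v →
        actHom F (∑ i ∈ Finset.Ioo (-N : ℤ) N, (i : End T) * π i) v = W.hom v := by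
      intro v j hv
      have h2 : ∀ i, actHom F (π i) v = if i = j then v else 0 := fun i => hr i j v hv
      have h3 : v = ∑ i ∈ Finset.Ioo (-N : ℤ) N, actHom F (π i) v := by
        rw [← LinearMap.sum_apply, ← map_sum, D.sum, map_one]
        rfl
      rw [map_sum, LinearMap.sum_apply, hv]
      have h4 : ∀ i ∈ Finset.Ioo (-N : ℤ) N, actHom F ((i : End T) * π i) v =
          (j : K) • actHom F (π i) v := by
        intro i _
        rw [map_mul, map_intCast, Module.End.mul_apply, h2]
        split_ifs with h5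
        · rw [h5, Module.End.intCast_apply, Int.cast_smul_eq_zsmul]
        · simp
      rw [Finset.sum_congr rfl h4, ← Finset.smul_sum, ← h3]
    ext v
    have hv : v ∈ ⨆ i : ℤ, Module.End.eigenspace W.hom (i : K) := by
      rw [hW]; trivial
    change actHom F (∑ i ∈ Finset.Ioo (-N : ℤ) N, (i : End T) * π i) v = W.hom v
    refine Submodule.iSup_induction (fun i : ℤ => Module.End.eigenspace W.hom (i : K))
      (motive := fun v => actHom F (∑ i ∈ Finset.Ioo (-N : ℤ) N, (i : End T) * π i) v =
        W.hom v) hv ?_ ?_ ?_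
    · intro j x hx
      exact h1 x j (Module.End.mem_eigenspace_iff.1 hx)
    · rw [map_zero, map_zero]
    · intro x y hx hy
      rw [map_add, map_add, hx, hy]

/-- The equivalence. -/
theorem exists_dcm_iff (hN : e ^ N = 0)
    (hW : ⨆ i : ℤ, Module.End.eigenspace W.hom (i : K) = ⊤) :
    (∃ z, Solves F e z W) ↔ ∃ (π : ℤ → End T) (f : End T), Dcm e f N π ∧
      ∀ (i j : ℤ) (v : F.obj T), W.hom v = (j : K) • v →
        (F.map (π i : T ⟶ T)).hom v = if i = j then v else 0 :=
  ⟨fun ⟨_, hz⟩ => hz.exists_dcm hN, fun ⟨_, f, D, hr⟩ => ⟨f, D.solves hr hW⟩⟩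

end Pool.Agent.U724.JM
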