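import Mathlib

/-!
# The theorem of Jacobson and Morozov in arbitrary algebras

`e` is a nilpotent element of a `ℚ`-algebra and `h = [e, z]` satisfies `[h, e] = 2 e`.
-/

set_option autoImplicit false

namespace Pool.Agent.U724.JM

section Step

variable {A : Type*} [Ring A] {e z h : A}

/-- `[e^(n+1), z] = (n+1) (h - n) e^n`. -/
lemma pow_comm (h1 : e * z = z * e + h) (h2 : h * e = e * h + 2 * e) (n : ℕ) :
    e ^ (n + 1) * z = z * e ^ (n + 1) + (n + 1 : A) * ((h - n) * e ^ n) := by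
  induction n with
  | zero => simp [h1]
  | succ n ih =>
    have h3 : e * h = h * e - 2 * e := by rw [h2]; abel
    rw [pow_succ' e (n + 1), mul_assoc, ih, mul_add, ← mul_assoc e z, h1, pow_succ' e n]
    have h4 : e * ((n + 1 : A) * ((h - n) * e ^ n)) = (n + 1 : A) * ((h - n - 2) * (e * e ^ n)) := by
      have h5 : e * (n + 1 : A) = (n + 1 : A) * e := by
        rw [mul_add, add_mul, mul_one, one_mul, (Nat.cast_commute n e).eq]
      have h6 : e * (h - n) = (h - n - 2) * e := by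
        rw [mul_sub, h3, sub_mul, sub_mul, (Nat.cast_commute n e).eq]
        abel
      rw [← mul_assoc, h5, mul_assoc, ← mul_assoc e, h6]
      noncomm_ring
    rw [h4]
    push_cast
    noncomm_ring

end Step

section Mod

variable {A : Type*} [Ring A] [Algebra ℚ A] {V : Type*} [AddCommGroup V] [Module A V]
  {e z h : A}

/-- Each step raises the power of `e`. -/
lemma step (h1 : e * z = z * e + h) (h2 : h * e = e * h + 2 * e) {j : ℕ} {u : V}
    (hu : e ^ (j + 1) • u = 0) : ∃ u' : V, (h - j) • (e ^ j • u) = e ^ (j + 1) • u' ∧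
      e ^ (j + 2) • u' = 0 := by
  have h4 : ((algebraMap ℚ A) ((j + 1 : ℚ)⁻¹)) * (j + 1 : A) = 1 := by
    have h5 : (j + 1 : A) = algebraMap ℚ A (j + 1) := by simp
    rw [h5, ← map_mul, inv_mul_cancel₀ (by positivity), map_one]
  have h3 : e ^ (j + 1) * (algebraMap ℚ A ((j + 1 : ℚ)⁻¹) * z) =
      algebraMap ℚ A ((j + 1 : ℚ)⁻¹) * z * e ^ (j + 1) + (h - j) * e ^ j := by
    rw [← mul_assoc, ← Algebra.commutes, mul_assoc, pow_comm h1 h2, mul_add, ← mul_assoc,
      ← mul_assoc (algebraMap ℚ A ((j + 1 : ℚ)⁻¹)) (j + 1 : A), h4, one_mul]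
  have h5 : (h - j) • (e ^ j • u) =
      e ^ (j + 1) • ((algebraMap ℚ A) ((j + 1 : ℚ)⁻¹) • (z • u)) := by
    have h6 := congrArg (fun a : A => a • u) h3
    simp only [add_smul, mul_smul, hu, smul_zero, zero_add] at h6
    exact h6.symm
  refine ⟨_, h5, ?_⟩
  rw [pow_succ' e (j + 1), mul_smul, ← h5, ← mul_smul]
  have h6 : e * (h - j) = (h - j - 2) * e := by
    have h3 : e * h = h * e - 2 * e := by rw [h2]; abel
    rw [mul_sub, h3, sub_mul, sub_mul, (Nat.cast_commute j e).eq]
    abel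
  rw [h6, mul_smul, ← mul_smul e, ← pow_succ', hu, smul_zero]

/-- The kernel of `e` on the image of `e^k` is killed by `(h - k) ⋯ (h - N + 1)`. -/
lemma prod_kills (h1 : e * z = z * e + h) (h2 : h * e = e * h + 2 * e) {N : ℕ} (hN : e ^ N = 0)
    {k : ℕ} {u : V} (hu : e ^ (k + 1) • u = 0) :
    Polynomial.aeval h (∏ i ∈ Finset.Ico k N, (Polynomial.X - Polynomial.C (i : ℚ))) •
      (e ^ k • u) = 0 := by
  by_cases hk : N ≤ k
  · obtain ⟨m, rfl⟩ := Nat.exists_eq_add_of_le hk
    rw [pow_add, hN, zero_mul, zero_smul, smul_zero]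
  · push Not at hk
    have key : ∀ j, k ≤ j → ∃ u' : V,
        Polynomial.aeval h (∏ i ∈ Finset.Ico k j, (Polynomial.X - Polynomial.C (i : ℚ))) •
          (e ^ k • u) = e ^ j • u' ∧ e ^ (j + 1) • u' = 0 := by
      intro j hj
      induction j, hj using Nat.le_induction with
      | base => exact ⟨u, by simp, hu⟩
      | succ j hj ih =>
        obtain ⟨u', h3, h4⟩ := ih
        obtain ⟨u'', h5, h6⟩ := step h1 h2 h4
        refine ⟨u'', ?_, h6⟩
        rw [Finset.prod_Ico_succ_top hj, mul_comm, map_mul, mul_smul, h3, ← h5]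
        simp
    obtain ⟨u', h3, -⟩ := key N hk.le
    rw [h3, hN, zero_smul]

end Mod

end Pool.Agent.U724.JM
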