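import Pool.Agent.U724.JM.Proj
import Pool.Agent.U724.CH.Pair

/-!
# Adjoint endomorphisms of a self-dual object and self-dual families of projectors
-/

set_option autoImplicit false
set_option linter.unusedSectionVars false

open CategoryTheory Limits MonoidalCategory Module Polynomial
open Pool.Agent.U724.PH Pool.Agent.U724.CH
open Functor.LaxMonoidal Functor.OplaxMonoidal

namespace Pool.Agent.U724.JM

universe v u w t

section Adj

variable {C : Type u} [Category.{v} C] [MonoidalCategory C] {T : C} [ExactPairing T T]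

/-- `b` is the transpose of `a`: the adjoint for the pairing of `T` with itself. -/
def IsAdj (a b : T ⟶ T) : Prop := a ▷ T ≫ ε_ T T = T ◁ b ≫ ε_ T T

lemma IsAdj.comp {a b a' b' : T ⟶ T} (h : IsAdj a b) (h' : IsAdj a' b') :
    IsAdj (a ≫ a') (b' ≫ b) := by
  unfold IsAdj at *
  rw [comp_whiskerRight, Category.assoc, h', ← whisker_exchange_assoc, h,
    MonoidalCategory.whiskerLeft_comp, Category.assoc]

lemma IsAdj.id : IsAdj (𝟙 T) (𝟙 T) := by
  unfold IsAdj
  simp

lemma exists_adj (a : T ⟶ T) : ∃ b, IsAdj a b := by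
  let c : T ⊗ T ⟶ 𝟙_ C := a ▷ T ≫ ε_ T T
  let g : T ⟶ T ⊗ 𝟙_ C := tensorLeftHomEquiv T T T (𝟙_ C) c
  have hg : (tensorLeftHomEquiv T T T (𝟙_ C)).symm g = c := Equiv.symm_apply_apply _ _
  refine ⟨g ≫ (ρ_ T).hom, ?_⟩
  have h1 : (tensorLeftHomEquiv T T T (𝟙_ C)).symm g =
      T ◁ g ≫ (α_ _ _ _).inv ≫ ε_ T T ▷ (𝟙_ C) ≫ (λ_ _).hom := rfl
  unfold IsAdj
  change c = _
  rw [← hg, h1, MonoidalCategory.whiskerLeft_comp, Category.assoc]
  congr 1
  rw [unitors_equal, rightUnitor_naturality]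
  rw [rightUnitor_tensor_hom]
  simp

variable [SymmetricCategory C]

lemma IsAdj.symm (hs : SymPair T) {a b : T ⟶ T} (h : IsAdj a b) : IsAdj b a := by
  unfold IsAdj at *
  have h1 : b ▷ T ≫ ε_ T T = b ▷ T ≫ (β_ T T).hom ≫ ε_ T T := by rw [hs.ev]
  rw [h1, BraidedCategory.braiding_naturality_left_assoc, ← h,
    ← BraidedCategory.braiding_naturality_right_assoc, hs.ev]

end Adj

section Lin

variable {C : Type u} [Category.{v} C] [Preadditive C] [Linear ℚ C] [MonoidalCategory C]
  [MonoidalPreadditive C] [MonoidalLinear ℚ C] {T : C} [ExactPairing T T]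

lemma IsAdj.add {a b a' b' : T ⟶ T} (h : IsAdj a b) (h' : IsAdj a' b') :
    IsAdj (a + a') (b + b') := by
  unfold IsAdj at *
  rw [MonoidalPreadditive.add_whiskerRight, MonoidalPreadditive.whiskerLeft_add,
    Preadditive.add_comp, Preadditive.add_comp, h, h']

lemma IsAdj.smul {a b : T ⟶ T} (h : IsAdj a b) (c : ℚ) : IsAdj (c • a) (c • b) := by
  unfold IsAdj at *
  rw [MonoidalLinear.smul_whiskerRight, MonoidalLinear.whiskerLeft_smul, Linear.smul_comp,
    Linear.smul_comp, h]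

lemma IsAdj.neg {a b : T ⟶ T} (h : IsAdj a b) : IsAdj (-a) (-b) := by
  have h1 := h.smul (-1)
  rwa [neg_one_smul, neg_one_smul] at h1

lemma IsAdj.sub {a b a' b' : T ⟶ T} (h : IsAdj a b) (h' : IsAdj a' b') :
    IsAdj (a - a') (b - b') := by
  rw [sub_eq_add_neg, sub_eq_add_neg]
  exact h.add h'.neg

lemma IsAdj.mul {a b a' b' : End T} (h : IsAdj a b) (h' : IsAdj a' b') :
    IsAdj (a * a' : End T) (b' * b : End T) := h'.comp h

lemma IsAdj.pow {a b : End T} (h : IsAdj a b) (n : ℕ) : IsAdj (a ^ n : End T) (b ^ n : End T) := by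
  induction n with
  | zero => exact IsAdj.id
  | succ n ih =>
    rw [pow_succ, pow_succ']
    exact ih.mul h

lemma IsAdj.aeval {a b : End T} (h : IsAdj a b) (q : ℚ[X]) :
    IsAdj (Polynomial.aeval a q : End T) (Polynomial.aeval b q : End T) := by
  induction q using Polynomial.induction_on' with
  | add p q hp hq => rw [map_add, map_add]; exact hp.add hq
  | monomial n c =>
    rw [aeval_monomial, aeval_monomial, ← Algebra.smul_def, ← Algebra.smul_def]
    exact (h.pow n).smul c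

end Lin

section Uniq

variable {C : Type u} [Category.{v} C] [Preadditive C] [MonoidalCategory C]
  [MonoidalPreadditive C] {T : C} [ExactPairing T T]

lemma nondegC {g : T ⟶ T} (hg : T ◁ g ≫ ε_ T T = 0) : g = 0 := by
  have h1 : g = g ≫ (λ_ T).inv ≫ (η_ T T ▷ T ≫ (α_ _ _ _).hom ≫
      T ◁ ε_ T T) ≫ (ρ_ T).hom := by
    rw [ExactPairing.evaluation_coevaluation]
    simp
  rw [h1]
  have h2 : g ≫ (λ_ T).inv = (λ_ T).inv ≫ 𝟙_ C ◁ g := by simp
  rw [reassoc_of% h2]
  simp only [Category.assoc]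
  rw [whisker_exchange_assoc, MonoidalCategory.tensor_whiskerLeft]
  simp only [Category.assoc, Iso.inv_hom_id_assoc]
  rw [← MonoidalCategory.whiskerLeft_comp_assoc, hg, MonoidalPreadditive.whiskerLeft_zero,
    Limits.zero_comp, Limits.comp_zero, Limits.comp_zero, Limits.comp_zero]

lemma IsAdj.uniq {a b b' : T ⟶ T} (h : IsAdj a b) (h' : IsAdj a b') : b = b' := by
  rw [← sub_eq_zero]
  apply nondegC
  unfold IsAdj at h h'
  have h1 : T ◁ (b - b') = T ◁ b - T ◁ b' := (tensorLeft T).map_sub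
  rw [h1, Preadditive.sub_comp, ← h, ← h', sub_self]

end Uniq

section Real

variable {C : Type u} [Category.{v} C] [MonoidalCategory C]
  {D : Type w} [Category.{t} D] [MonoidalCategory D] (F : C ⥤ D) [F.Monoidal]
  {T : C} [ExactPairing T T]

lemma IsAdj.map {a b : T ⟶ T} (h : IsAdj a b) :
    F.map a ▷ F.obj T ≫ evF F T T = F.obj T ◁ F.map b ≫ evF F T T := by
  unfold IsAdj at h
  rw [evF, μ_natural_left_assoc, ← Functor.map_comp_assoc, h, μ_natural_right_assoc,
    ← Functor.map_comp_assoc]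

variable [Preadditive D] [MonoidalPreadditive D]

lemma nondeg {g : F.obj T ⟶ F.obj T} (hg : F.obj T ◁ g ≫ evF F T T = 0) : g = 0 := by
  have h1 : g = g ≫ (λ_ (F.obj T)).inv ≫ (coF F T T ▷ F.obj T ≫ (α_ _ _ _).hom ≫
      F.obj T ◁ evF F T T) ≫ (ρ_ (F.obj T)).hom := by
    rw [zz1]
    simp
  rw [h1]
  have h2 : g ≫ (λ_ (F.obj T)).inv = (λ_ (F.obj T)).inv ≫ 𝟙_ D ◁ g := by simp
  rw [reassoc_of% h2]
  simp only [Category.assoc]
  rw [whisker_exchange_assoc, MonoidalCategory.tensor_whiskerLeft]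
  simp only [Category.assoc, Iso.inv_hom_id_assoc]
  rw [← MonoidalCategory.whiskerLeft_comp_assoc, hg, MonoidalPreadditive.whiskerLeft_zero,
    Limits.zero_comp, Limits.comp_zero, Limits.comp_zero, Limits.comp_zero]

end Real

end Pool.Agent.U724.JM
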