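import Pool.Agent.U724.JM.Cat

/-!
# Self-dual families of projectors from one linear equation
-/

set_option autoImplicit false
set_option linter.unusedSectionVars false

open CategoryTheory Limits MonoidalCategory Module
open Pool.Agent.U724.PH Pool.Agent.U724.CH

namespace Pool.Agent.U724.JM

universe v u w t

variable {C : Type u} [Category.{v} C] [Preadditive C] [Linear ℚ C] [MonoidalCategory C]
  [MonoidalPreadditive C] [MonoidalLinear ℚ C] [SymmetricCategory C]
  {K : Type w} [Field K] [CharZero K] (F : C ⥤ ModuleCat.{w} K) [F.Monoidal] [F.Additive]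

/-- `z` solves the linear equation for `e` and the commutator of `e` and `z` realises `W`. -/
structure Solves {T : C} (e z : End T) (W : F.obj T ⟶ F.obj T) : Prop where
  eq : (e * z - z * e) * e = e * (e * z - z * e) + 2 * e
  real : F.map ((e * z - z * e : End T) : T ⟶ T) = W

section Act

variable {T : C}

/-- The action of the endomorphisms on the realisation. -/
def actHom : End T →+* Module.End K (F.obj T) where
  toFun a := (F.map (a : T ⟶ T)).hom
  map_one' := by
    change (F.map (𝟙 T)).hom = 1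
    rw [F.map_id]
    rfl
  map_mul' a b := by
    change (F.map (b ≫ a)).hom = _
    rw [F.map_comp]
    rfl
  map_zero' := by
    change (F.map (0 : T ⟶ T)).hom = 0
    rw [F.map_zero]
    rfl
  map_add' a b := by
    change (F.map ((a : T ⟶ T) + (b : T ⟶ T))).hom = _
    rw [F.map_add]
    rfl

lemma real_prj {e f h : End T} {N : ℕ} (tr : Triple e f h N) {W : F.obj T ⟶ F.obj T}
    (hW : F.map (h : T ⟶ T) = W) (i j : ℤ) (v : F.obj T) (hv : W.hom v = (j : K) • v) :
    (F.map ((prj h N i : End T) : T ⟶ T)).hom v = if i = j then v else 0 := by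
  let _ : Module (End T) (F.obj T) := Module.compHom _ (actHom F)
  refine tr.prj_act (V := F.obj T) (v := v) (i := j) ?_ i
  change (F.map (h : T ⟶ T)).hom v = j • v
  rw [hW, hv, Int.cast_smul_eq_zsmul]

end Act

variable {T : C} [ExactPairing T T]

/-- The operator `W` on the realisation of the self-dual object `T`: it is diagonalizable with
integral eigenvalues and skew for the pairing. -/
structure IsWt (W : F.obj T ⟶ F.obj T) : Prop where
  skew : W ▷ F.obj T ≫ evF F T T = -(F.obj T ◁ W ≫ evF F T T)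
  span : ⨆ i : ℤ, Module.End.eigenspace W.hom (i : K) = ⊤

/-- The self-dual family of orthogonal projectors `π` which are raised by `e` and lowered by `f`. -/
structure LefCK (W : F.obj T ⟶ F.obj T) (e : End T) (N : ℕ) (π : ℤ → End T) (f : End T) :
    Prop where
  mul : ∀ i j, π i * π j = if i = j then π i else 0
  sum : ∑ i ∈ Finset.Ioo (-N : ℤ) N, π i = 1
  dual : ∀ i, IsAdj (π i : T ⟶ T) (π (-i) : T ⟶ T)
  real : ∀ (i j : ℤ) (v : F.obj T), W.hom v = (j : K) • v →
    (F.map (π i : T ⟶ T)).hom v = if i = j then v else 0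
  raise : ∀ i, e * π i = π (i + 2) * e
  lower : ∀ i, f * π (i + 2) = π i * f
  lie : e * f - f * e = ∑ i ∈ Finset.Ioo (-N : ℤ) N, (i : End T) * π i

variable {F}

/-- The transpose of a solution is a solution. -/
lemma Solves.adj {e z z' : End T} (he : IsAdj (e : T ⟶ T) e)
    {W : F.obj T ⟶ F.obj T} (hW : W ▷ F.obj T ≫ evF F T T = -(F.obj T ◁ W ≫ evF F T T))
    (h : Solves F e z W) (hz : IsAdj (z : T ⟶ T) z') : Solves F e z' W := by
  have h1 : IsAdj ((e * z - z * e : End T) : T ⟶ T) (-(e * z' - z' * e) : End T) := by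
    have h2 := (he.mul hz).sub (hz.mul he)
    rw [neg_sub]
    exact h2
  constructor
  · have h2 : IsAdj (((e * z - z * e) * e : End T) : T ⟶ T)
        ((e * -(e * z' - z' * e)) : End T) := h1.mul he
    have h3 : IsAdj ((e * (e * z - z * e) + 2 * e : End T) : T ⟶ T)
        ((-(e * z' - z' * e) * e + 2 * e : End T)) := by
      refine (he.mul h1).add ?_
      rw [two_mul]
      exact he.add he
    rw [h.eq] at h2
    have h4 : (-(e * z' - z' * e) * e + 2 * e : End T) = (e * -(e * z' - z' * e) : End T) :=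
      h3.uniq h2
    linear_combination (norm := noncomm_ring) -h4
  · have h3 : F.obj T ◁ (F.map ((e * z' - z' * e : End T) : T ⟶ T) - W) ≫ evF F T T = 0 := by
      have h4 : F.obj T ◁ (F.map ((e * z' - z' * e : End T) : T ⟶ T) - W) =
          F.obj T ◁ F.map ((e * z' - z' * e : End T) : T ⟶ T) - F.obj T ◁ W :=
        (tensorLeft (F.obj T)).map_sub
      have h5 : F.obj T ◁ (-F.map ((e * z' - z' * e : End T) : T ⟶ T)) =
          -(F.obj T ◁ F.map ((e * z' - z' * e : End T) : T ⟶ T)) :=
        (tensorLeft (F.obj T)).map_neg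
      have h6 := h1.map F
      have h7 : F.map ((-(e * z' - z' * e) : End T) : T ⟶ T) =
          -F.map ((e * z' - z' * e : End T) : T ⟶ T) := F.map_neg
      rw [h.real, hW, h7, h5, Preadditive.neg_comp] at h6
      rw [h4, Preadditive.sub_comp, sub_eq_zero]
      exact (neg_injective h6).symm
    exact sub_eq_zero.1 (nondeg F h3)

lemma Solves.half {e z z' : End T} {W : F.obj T ⟶ F.obj T} (h : Solves F e z W)
    (h' : Solves F e z' W) : Solves F e ((2⁻¹ : ℚ) • (z + z')) W := by
  have h0 : (e * ((2⁻¹ : ℚ) • (z + z')) - ((2⁻¹ : ℚ) • (z + z')) * e : End T) =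
      (2⁻¹ : ℚ) • ((e * z - z * e) + (e * z' - z' * e)) := by
    rw [mul_smul_comm, smul_mul_assoc, ← smul_sub]
    congr 1
    noncomm_ring
  constructor
  · rw [h0, smul_mul_assoc, mul_smul_comm, add_mul, h.eq, h'.eq, mul_add]
    have h1 : (2 * e : End T) = (2⁻¹ : ℚ) • (2 * e + 2 * e) := by
      rw [← two_smul ℚ (2 * e), smul_smul]
      norm_num
    conv_rhs => rw [h1, ← smul_add]
    congr 1
    abel
  · rw [h0]
    have h1 : F.map (((2⁻¹ : ℚ) • ((e * z - z * e) + (e * z' - z' * e)) : End T) : T ⟶ T) +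
        F.map (((2⁻¹ : ℚ) • ((e * z - z * e) + (e * z' - z' * e)) : End T) : T ⟶ T) = W + W := by
      rw [← F.map_add]
      have h2 : ((((2⁻¹ : ℚ) • ((e * z - z * e) + (e * z' - z' * e)) : End T) : T ⟶ T) +
        (((2⁻¹ : ℚ) • ((e * z - z * e) + (e * z' - z' * e)) : End T) : T ⟶ T)) =
        ((e * z - z * e : End T) : T ⟶ T) + ((e * z' - z' * e : End T) : T ⟶ T) := by
        rw [← two_smul ℚ, smul_smul]
        norm_num
      rw [h2, F.map_add, h.real, h'.real]
    ext v
    have h3 : (2 : K) ≠ 0 := two_ne_zero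
    have h4 := congrArg (fun g : F.obj T ⟶ F.obj T => g.hom v) h1
    have h5 : (2 : K) • ((F.map (((2⁻¹ : ℚ) • ((e * z - z * e) +
        (e * z' - z' * e)) : End T) : T ⟶ T)).hom v) = (2 : K) • (W.hom v) := by
      rw [two_smul, two_smul]
      exact h4
    exact smul_right_injective _ h3 h5

/-- The main equivalence. -/
theorem solves_iff (hs : SymPair T) {e : End T} (he : IsAdj (e : T ⟶ T) e) {N : ℕ}
    (hN : e ^ N = 0) {W : F.obj T ⟶ F.obj T} (hW : IsWt F W) :
    (∃ z, Solves F e z W) ↔ ∃ π f, LefCK F W e N π f := by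
  constructor
  · rintro ⟨z, hz⟩
    obtain ⟨z', hz'⟩ : ∃ z' : End T, IsAdj (z : T ⟶ T) z' := exists_adj _
    obtain ⟨y, hy, hy2⟩ : ∃ y : End T, Solves F e y W ∧ IsAdj (y : T ⟶ T) y := by
      refine ⟨(2⁻¹ : ℚ) • (z + z'), hz.half (Solves.adj he hW.skew hz hz'), ?_⟩
      have h1 : IsAdj ((z + z' : End T) : T ⟶ T) (z' + z : End T) := hz'.add (hz'.symm hs)
      have h2 := h1.smul (2⁻¹ : ℚ)
      rw [add_comm z'] at h2
      exact h2
    obtain ⟨h, hh⟩ : ∃ h : End T, h = e * y - y * e := ⟨_, rfl⟩
    have h1 : e * y = y * e + h := by rw [hh]; abel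
    have h2 : h * e = e * h + 2 * e := by rw [hh]; exact hy.eq
    obtain ⟨f, h3, h4⟩ := morozov hN h1 h2
    have tr : Triple e f h N := ⟨h3, h2, h4, hN⟩
    have ha : IsAdj (h : T ⟶ T) (-h : End T) := by
      have h5 : IsAdj ((e * y - y * e : End T) : T ⟶ T) (y * e - e * y : End T) :=
        (he.mul hy2).sub (hy2.mul he)
      rw [hh, neg_sub]
      exact h5
    refine ⟨fun i => prj h N i, f, tr.prj_mul, tr.prj_sum, fun i => ?_, fun i j v hv => ?_,
      fun i => ?_, fun i => ?_, ?_⟩
    · have h5 := ha.aeval (Lagrange.basis (Finset.Ioo (-N : ℤ) N) (fun j : ℤ => (j : ℚ)) i)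
      have h6 : Polynomial.aeval (-h) (Lagrange.basis (Finset.Ioo (-N : ℤ) N)
          (fun j : ℤ => (j : ℚ)) i) = prj h N (-i) := by
        have h7 : Polynomial.aeval (-h) (Lagrange.basis (Finset.Ioo (-N : ℤ) N)
            (fun j : ℤ => (j : ℚ)) i) = Polynomial.aeval h ((Lagrange.basis
            (Finset.Ioo (-N : ℤ) N) (fun j : ℤ => (j : ℚ)) i).comp (-Polynomial.X)) := by
          rw [Polynomial.aeval_comp, map_neg, Polynomial.aeval_X]
        rw [h7]
        refine tr.congr fun l hl => ?_
        rw [Polynomial.eval_comp, Polynomial.eval_neg, Polynomial.eval_X, eval_basis N (-i) hl]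
        have hl' : -l ∈ Finset.Ioo (-N : ℤ) N := by
          rw [Finset.mem_Ioo] at hl ⊢
          omega
        have h8 := eval_basis N i hl'
        push_cast at h8
        rw [h8]
        congr 1
        rw [eq_iff_iff]
        omega
      rw [h6] at h5
      exact h5
    · exact real_prj F tr (by rw [hh]; exact hy.real) i j v hv
    · refine tr.prj_semi (c := 2) ?_ i
      rw [h2]
      push_cast
      noncomm_ring
    · have h5 := tr.prj_semi (x := f) (c := -2) (by rw [h4]; push_cast; noncomm_ring) (i + 2)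
      rw [show i + 2 + -2 = i by ring] at h5
      exact h5
    · rw [tr.sum_smul, h3]
      abel
  · rintro ⟨π, f, hp⟩
    have hout : ∀ m, m ∉ Finset.Ioo (-N : ℤ) N → π m = 0 := by
      intro m hm
      rw [← mul_one (π m), ← hp.sum, Finset.mul_sum]
      refine Finset.sum_eq_zero fun i hi => ?_
      rw [hp.mul, if_neg]
      rintro rfl
      exact hm hi
    have hA : ∀ m : ℤ, π m * (∑ i ∈ Finset.Ioo (-N : ℤ) N, (i : End T) * π i) =
        (m : End T) * π m := by
      intro m
      by_cases hm : m ∈ Finset.Ioo (-N : ℤ) N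
      · rw [Finset.mul_sum, Finset.sum_eq_single_of_mem m hm]
        · rw [← mul_assoc, ← (Int.cast_commute m (π m)).eq, mul_assoc, hp.mul, if_pos rfl]
        · intro i _ hi
          rw [← mul_assoc, ← (Int.cast_commute i (π m)).eq, mul_assoc, hp.mul,
            if_neg (Ne.symm hi), mul_zero]
      · rw [hout m hm, zero_mul, mul_zero]
    refine ⟨f, ?_, ?_⟩
    · rw [hp.lie]
      have h1 : ∀ x : End T, x = ∑ i ∈ Finset.Ioo (-N : ℤ) N, π i * x := by
        intro x
        rw [← Finset.sum_mul, hp.sum, one_mul]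
      rw [h1 (e * ∑ i ∈ Finset.Ioo (-N : ℤ) N, (i : End T) * π i), h1 (2 * e), Finset.sum_mul,
        ← Finset.sum_add_distrib]
      refine Finset.sum_congr rfl fun i _ => ?_
      have h2 := hp.raise (i - 2)
      rw [show i - 2 + 2 = i by ring] at h2
      rw [← mul_assoc (π i) e, ← h2, mul_assoc e, hA, ← mul_assoc e,
        ← (Int.cast_commute (i - 2) e).eq, mul_assoc ((i - 2 : ℤ) : End T), h2, mul_assoc]
      push_cast
      have h3 : π i * (2 * e) = 2 * (π i * e) := by
        rw [two_mul, two_mul, mul_add]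
      rw [h3]
      noncomm_ring
    · rw [hp.lie]
      have h1 : ∀ v : F.obj T, ∀ j : ℤ, W.hom v = (j : K) • v →
          actHom F (∑ i ∈ Finset.Ioo (-N : ℤ) N, (i : End T) * π i) v = W.hom v := by
        intro v j hv
        have h2 : ∀ i, actHom F (π i) v = if i = j then v else 0 := fun i => hp.real i j v hv
        have h3 : v = ∑ i ∈ Finset.Ioo (-N : ℤ) N, actHom F (π i) v := by
          rw [← LinearMap.sum_apply, ← map_sum, hp.sum, map_one]
          rfl
        rw [map_sum, LinearMap.sum_apply, hv]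
        have h4 : ∀ i ∈ Finset.Ioo (-N : ℤ) N, actHom F ((i : End T) * π i) v =
            (j : K) • actHom F (π i) v := by
          intro i _
          rw [map_mul, map_intCast, Module.End.mul_apply, h2]
          split_ifs with h5
          · rw [h5, Module.End.intCast_apply, Int.cast_smul_eq_zsmul]
          · simp
        rw [Finset.sum_congr rfl h4, ← Finset.smul_sum, ← h3]
      ext v
      have hv : v ∈ ⨆ i : ℤ, Module.End.eigenspace W.hom (i : K) := by
        rw [hW.span]; trivial
      change actHom F (∑ i ∈ Finset.Ioo (-N : ℤ) N, (i : End T) * π i) v = W.hom v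
      refine Submodule.iSup_induction (fun i : ℤ => Module.End.eigenspace W.hom (i : K))
        (motive := fun v => actHom F (∑ i ∈ Finset.Ioo (-N : ℤ) N, (i : End T) * π i) v =
          W.hom v) hv ?_ ?_ ?_
      · intro j x hx
        exact h1 x j (Module.End.mem_eigenspace_iff.1 hx)
      · rw [map_zero, map_zero]
      · intro x y hx hy
        rw [map_add, map_add, hx, hy]

end Pool.Agent.U724.JM
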