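import Pool.Agent.U724.JM.Dec

/-!
# Descent of the solutions
-/

set_option autoImplicit false
set_option linter.unusedSectionVars false

open CategoryTheory Limits MonoidalCategory Module
open Pool.Agent.U724.PH Pool.Agent.U724.CH

namespace Pool.Agent.U724.JM

universe v u w t

variable {C : Type u} [Category.{v} C] [Preadditive C] [Linear ℚ C]
  {K : Type w} [Field K] {F : C ⥤ ModuleCat.{w} K} [F.Additive]

/-- The solutions descend to the direct summands. -/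
lemma Solves.descend {T S : C} {eT z : End T} {eS : End S} {WT : F.obj T ⟶ F.obj T}
    {WS : F.obj S ⟶ F.obj S} (h : Solves F eT z WT) (a : S ⟶ T) (b : T ⟶ S) {r : ℚ}
    (hr : r ≠ 0) (hab : a ≫ b = r • 𝟙 S) (ha : a ≫ (eT : T ⟶ T) = (eS : S ⟶ S) ≫ a)
    (hb : (eT : T ⟶ T) ≫ b = b ≫ (eS : S ⟶ S)) (hWa : F.map a ≫ WT = WS ≫ F.map a) :
    ∃ z' : End S, Solves F eS z' WS := by
  let φ : End T → End S := fun x => r⁻¹ • (a ≫ (x : T ⟶ T) ≫ b)
  have h1 : ∀ x : End T, eS * φ x = φ (eT * x) := by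
    intro x
    change (r⁻¹ • (a ≫ (x : T ⟶ T) ≫ b)) ≫ (eS : S ⟶ S) = r⁻¹ • (a ≫ ((x : T ⟶ T) ≫ eT) ≫ b)
    rw [Linear.smul_comp, Category.assoc, Category.assoc, ← hb, Category.assoc]
  have h2 : ∀ x : End T, φ x * eS = φ (x * eT) := by
    intro x
    change (eS : S ⟶ S) ≫ (r⁻¹ • (a ≫ (x : T ⟶ T) ≫ b)) = r⁻¹ • (a ≫ ((eT : T ⟶ T) ≫ x) ≫ b)
    rw [Linear.comp_smul, ← Category.assoc, ← ha]
    simp only [Category.assoc]
  have h3 : ∀ x y : End T, φ (x - y) = φ x - φ y := by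
    intro x y
    change r⁻¹ • (a ≫ ((x : T ⟶ T) - (y : T ⟶ T)) ≫ b) =
      r⁻¹ • (a ≫ (x : T ⟶ T) ≫ b) - r⁻¹ • (a ≫ (y : T ⟶ T) ≫ b)
    rw [Preadditive.sub_comp, Preadditive.comp_sub, smul_sub]
  have h4 : ∀ x y : End T, φ (x + y) = φ x + φ y := by
    intro x y
    change r⁻¹ • (a ≫ ((x : T ⟶ T) + (y : T ⟶ T)) ≫ b) =
      r⁻¹ • (a ≫ (x : T ⟶ T) ≫ b) + r⁻¹ • (a ≫ (y : T ⟶ T) ≫ b)
    rw [Preadditive.add_comp, Preadditive.comp_add, smul_add]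
  have h5 : φ eT = eS := by
    change r⁻¹ • (a ≫ (eT : T ⟶ T) ≫ b) = eS
    rw [← Category.assoc, ha, Category.assoc, hab, Linear.comp_smul, Category.comp_id, smul_smul,
      inv_mul_cancel₀ hr, one_smul]
  have h6 : eS * φ z - φ z * eS = φ (eT * z - z * eT) := by
    rw [h1, h2, h3]
  refine ⟨φ z, ?_, ?_⟩
  · rw [h6, h1, h2, h.eq, h4, two_mul, h4, h5, two_mul]
  · rw [h6]
    have h7 : ((φ (eT * z - z * eT) : End S) : S ⟶ S) =
        (a ≫ ((eT * z - z * eT : End T) : T ⟶ T) ≫ b) ≫ (r⁻¹ • 𝟙 S) := by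
      rw [Linear.comp_smul, Category.comp_id]
    have h8 : F.map (r • 𝟙 S) ≫ F.map (r⁻¹ • 𝟙 S) = 𝟙 _ := by
      rw [← F.map_comp, Linear.smul_comp, Category.id_comp, smul_smul, mul_inv_cancel₀ hr,
        one_smul, F.map_id]
    rw [h7, F.map_comp, F.map_comp, F.map_comp, h.real, reassoc_of% hWa, ← F.map_comp a b, hab,
      Category.assoc, h8, Category.comp_id]

end Pool.Agent.U724.JM
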