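import Pool.Agent.U724.JM.Dec

/-!
# Descent of the solutions along fibrations
-/

set_option autoImplicit false
set_option linter.unusedSectionVars false

open CategoryTheory Limits MonoidalCategory Module
open Pool.Agent.U724.PH Pool.Agent.U724.CH

namespace Pool.Agent.U724.JM

universe v u w t

section Sum

variable {A : Type*} [AddCommGroup A]

lemma sum_diff (f : ℕ → ℕ → A) (d : ℕ) :
    ∑ p ∈ Finset.HasAntidiagonal.antidiagonal d, (f (p.1 + 1) p.2 - f p.1 (p.2 + 1)) = f (d + 1) 0 - f 0 (d + 1) := by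
  have h1 := Finset.Nat.sum_antidiagonal_succ (n := d) (f := fun p => f p.1 p.2)
  have h2 := Finset.Nat.sum_antidiagonal_succ' (n := d) (f := fun p => f p.1 p.2)
  simp only at h1 h2
  rw [h1] at h2
  rw [Finset.sum_sub_distrib, sub_eq_sub_iff_add_eq_add, add_comm, h2]

end Sum

variable {C : Type u} [Category.{v} C] [Preadditive C] [Linear ℚ C]
  {K : Type w} [Field K] {F : C ⥤ ModuleCat.{w} K} [F.Additive]

/-- The compression of `x` by `a` and `b`. -/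
def cmp {T S : C} (a : S ⟶ T) (b : T ⟶ S) : End T →+ End S where
  toFun x := (a ≫ (x : T ⟶ T) ≫ b : S ⟶ S)
  map_zero' := by
    change a ≫ (0 : T ⟶ T) ≫ b = 0
    simp
  map_add' x y := by
    change a ≫ ((x : T ⟶ T) + (y : T ⟶ T)) ≫ b = _
    rw [Preadditive.add_comp, Preadditive.comp_add]

section Cmp

variable {T S : C} (a : S ⟶ T) (b : T ⟶ S)

lemma cmp_apply (x : End T) : (cmp a b x : S ⟶ S) = a ≫ (x : T ⟶ T) ≫ b := rfl

variable {a b}

lemma mul_cmp {e : End S} {η : End T} (hb : (η : T ⟶ T) ≫ b = b ≫ (e : S ⟶ S)) (x : End T) :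
    e * cmp a b x = cmp a b (η * x) := by
  change (a ≫ (x : T ⟶ T) ≫ b) ≫ (e : S ⟶ S) = a ≫ ((x : T ⟶ T) ≫ (η : T ⟶ T)) ≫ b
  simp only [Category.assoc]
  rw [hb]

lemma cmp_mul {e : End S} {η : End T} (ha : a ≫ (η : T ⟶ T) = (e : S ⟶ S) ≫ a) (x : End T) :
    cmp a b x * e = cmp a b (x * η) := by
  change (e : S ⟶ S) ≫ (a ≫ (x : T ⟶ T) ≫ b) = a ≫ ((η : T ⟶ T) ≫ (x : T ⟶ T)) ≫ b
  rw [← reassoc_of% ha, Category.assoc]

end Cmp

/-- The conditional expectation `∑ b ξ ^ q x ξ ^ p a` over `p + q = d`. -/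
def cexp {T S : C} (a : S ⟶ T) (b : T ⟶ S) (ξ : End T) (d : ℕ) : End T →+ End S where
  toFun x := ∑ p ∈ Finset.HasAntidiagonal.antidiagonal d, cmp a b (ξ ^ p.2 * x * ξ ^ p.1)
  map_zero' := by simp
  map_add' x y := by
    rw [← Finset.sum_add_distrib]
    refine Finset.sum_congr rfl fun p _ => ?_
    rw [mul_add, add_mul, map_add]

section Exp

variable {T S : C} {a : S ⟶ T} {b : T ⟶ S} {η ξ : End T} {e : End S} {d : ℕ}

lemma cexp_comm (ha : a ≫ (η : T ⟶ T) = (e : S ⟶ S) ≫ a)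
    (hb : (η : T ⟶ T) ≫ b = b ≫ (e : S ⟶ S)) (hc : η * ξ = ξ * η)
    (h1 : a ≫ ((ξ ^ (d + 1) : End T) : T ⟶ T) = 0) (h2 : ((ξ ^ (d + 1) : End T) : T ⟶ T) ≫ b = 0)
    (x : End T) :
    e * cexp a b ξ d x - cexp a b ξ d x * e = cexp a b ξ d ((η + ξ) * x - x * (η + ξ)) := by
  have h3 : ∀ n : ℕ, η * ξ ^ n = ξ ^ n * η := fun n =>
    (Commute.pow_right (show Commute η ξ from hc) n).eq
  change e * (∑ p ∈ Finset.HasAntidiagonal.antidiagonal d, cmp a b (ξ ^ p.2 * x * ξ ^ p.1)) -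
    (∑ p ∈ Finset.HasAntidiagonal.antidiagonal d, cmp a b (ξ ^ p.2 * x * ξ ^ p.1)) * e =
      ∑ p ∈ Finset.HasAntidiagonal.antidiagonal d, cmp a b (ξ ^ p.2 * ((η + ξ) * x - x * (η + ξ)) * ξ ^ p.1)
  rw [Finset.mul_sum, Finset.sum_mul, ← Finset.sum_sub_distrib, ← sub_eq_zero,
    ← Finset.sum_sub_distrib]
  have h4 : ∀ p ∈ Finset.HasAntidiagonal.antidiagonal d,
      e * cmp a b (ξ ^ p.2 * x * ξ ^ p.1) - cmp a b (ξ ^ p.2 * x * ξ ^ p.1) * e -
        cmp a b (ξ ^ p.2 * ((η + ξ) * x - x * (η + ξ)) * ξ ^ p.1) =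
      cmp a b (ξ ^ p.2 * x * ξ ^ (p.1 + 1)) - cmp a b (ξ ^ (p.2 + 1) * x * ξ ^ p.1) := by
    intro p _
    rw [mul_cmp hb, cmp_mul ha, ← map_sub, ← map_sub, ← map_sub]
    congr 1
    have e1 := h3 p.2
    have e2 := h3 p.1
    rw [pow_succ', pow_succ]
    linear_combination (norm := noncomm_ring) e1 * x * ξ ^ p.1 + ξ ^ p.2 * x * e2
  rw [Finset.sum_congr rfl h4,
    sum_diff (fun i j => cmp a b (ξ ^ j * x * ξ ^ i)) d, pow_zero, one_mul, mul_one]
  have h5 : cmp a b (x * ξ ^ (d + 1)) = 0 := by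
    change a ≫ (((ξ ^ (d + 1) : End T) : T ⟶ T) ≫ (x : T ⟶ T)) ≫ b = 0
    rw [Category.assoc, reassoc_of% h1, zero_comp]
  have h6 : cmp a b (ξ ^ (d + 1) * x) = 0 := by
    change a ≫ ((x : T ⟶ T) ≫ ((ξ ^ (d + 1) : End T) : T ⟶ T)) ≫ b = 0
    rw [Category.assoc, h2, comp_zero, comp_zero]
  rw [h5, h6, sub_zero]

lemma cexp_self {r : ℚ} (hab : a ≫ ((ξ ^ d : End T) : T ⟶ T) ≫ b = r • 𝟙 S)
    (hb : (η : T ⟶ T) ≫ b = b ≫ (e : S ⟶ S)) (hc : η * ξ = ξ * η)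
    (h1 : a ≫ ((ξ ^ (d + 1) : End T) : T ⟶ T) = 0) :
    cexp a b ξ d (η + ξ) = ((d + 1 : ℕ) * r) • e := by
  have h3 : ∀ n : ℕ, η * ξ ^ n = ξ ^ n * η := fun n =>
    (Commute.pow_right (show Commute η ξ from hc) n).eq
  change ∑ p ∈ Finset.HasAntidiagonal.antidiagonal d, cmp a b (ξ ^ p.2 * (η + ξ) * ξ ^ p.1) = _
  have h4 : ∀ p ∈ Finset.HasAntidiagonal.antidiagonal d, cmp a b (ξ ^ p.2 * (η + ξ) * ξ ^ p.1) = r • e := by
    intro p hp
    rw [Finset.HasAntidiagonal.mem_antidiagonal] at hp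
    have h5 : ξ ^ p.2 * (η + ξ) * ξ ^ p.1 = η * ξ ^ d + ξ ^ (d + 1) := by
      rw [← hp, mul_add, add_mul, ← h3, mul_assoc, ← pow_add, ← pow_succ, ← pow_add, add_comm p.2,
        show p.2 + 1 + p.1 = p.1 + p.2 + 1 by ring]
    have h6 : cmp a b (ξ ^ (d + 1)) = 0 := by
      change a ≫ ((ξ ^ (d + 1) : End T) : T ⟶ T) ≫ b = 0
      rw [reassoc_of% h1, zero_comp]
    have h7 : cmp a b (ξ ^ d) = r • (1 : End S) := hab
    rw [h5, map_add, h6, add_zero, ← mul_cmp hb, h7, mul_smul_comm, mul_one]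
  rw [Finset.sum_congr rfl h4, Finset.sum_const, Finset.Nat.card_antidiagonal,
    ← Nat.cast_smul_eq_nsmul ℚ, smul_smul]

/-- The solutions descend along fibrations. -/
theorem Solves.fib {z : End T} {WT : F.obj T ⟶ F.obj T} {WS : F.obj S ⟶ F.obj S}
    (h : Solves F (η + ξ) z WT) {r : ℚ} (hr : r ≠ 0)
    (hab : a ≫ ((ξ ^ d : End T) : T ⟶ T) ≫ b = r • 𝟙 S)
    (ha : a ≫ (η : T ⟶ T) = (e : S ⟶ S) ≫ a)
    (hb : (η : T ⟶ T) ≫ b = b ≫ (e : S ⟶ S)) (hc : η * ξ = ξ * η)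
    (h1 : a ≫ ((ξ ^ (d + 1) : End T) : T ⟶ T) = 0) (h2 : ((ξ ^ (d + 1) : End T) : T ⟶ T) ≫ b = 0)
    (hW : F.map (ξ : T ⟶ T) ≫ WT = WT ≫ F.map (ξ : T ⟶ T) + 2 • F.map (ξ : T ⟶ T))
    (hWa : F.map a ≫ WT = WS ≫ F.map a - d • F.map a) :
    ∃ z' : End S, Solves F e z' WS := by
  obtain ⟨s, hs⟩ : ∃ s : ℚ, s = (d + 1 : ℕ) * r := ⟨_, rfl⟩
  have hs0 : s ≠ 0 := by
    rw [hs]
    exact mul_ne_zero (by exact_mod_cast Nat.succ_ne_zero d) hr
  obtain ⟨c, hcc⟩ : ∃ c : End T, c = (η + ξ) * z - z * (η + ξ) := ⟨_, rfl⟩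
  have hcr : F.map (c : T ⟶ T) = WT := by rw [hcc]; exact h.real
  have h3 : ∀ x, e * cexp a b ξ d x - cexp a b ξ d x * e =
      cexp a b ξ d ((η + ξ) * x - x * (η + ξ)) := cexp_comm ha hb hc h1 h2
  refine ⟨s⁻¹ • cexp a b ξ d z, ?_, ?_⟩
  · have h4 : e * (s⁻¹ • cexp a b ξ d z) - (s⁻¹ • cexp a b ξ d z) * e =
        s⁻¹ • cexp a b ξ d c := by
      rw [mul_smul_comm, smul_mul_assoc, ← smul_sub, h3, hcc]
    rw [h4, smul_mul_assoc, mul_smul_comm]
    have h5 : cexp a b ξ d c * e - e * cexp a b ξ d c = (2 * s) • e := by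
      rw [← neg_sub, h3, ← map_neg]
      have h6 : -((η + ξ) * c - c * (η + ξ)) = (η + ξ) + (η + ξ) := by
        have h7 := h.eq
        rw [← hcc] at h7
        rw [neg_sub, h7]
        noncomm_ring
      rw [h6, map_add, cexp_self hab hb hc h1, ← hs, ← two_smul ℚ, smul_smul]
    have h6 : cexp a b ξ d c * e = e * cexp a b ξ d c + (2 * s) • e := by
      rw [← h5]; abel
    rw [h6, smul_add, smul_smul]
    congr 1
    rw [show s⁻¹ * (2 * s) = 2 by field_simp, two_smul, two_mul]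
  · have h4 : e * (s⁻¹ • cexp a b ξ d z) - (s⁻¹ • cexp a b ξ d z) * e =
        s⁻¹ • cexp a b ξ d c := by
      rw [mul_smul_comm, smul_mul_assoc, ← smul_sub, h3, hcc]
    rw [h4]
    have h5 : ∀ p : ℕ, F.map a ≫ F.map ((ξ ^ p : End T) : T ⟶ T) ≫ WT =
        WS ≫ F.map a ≫ F.map ((ξ ^ p : End T) : T ⟶ T) +
          (2 * (p : ℤ) - d) • (F.map a ≫ F.map ((ξ ^ p : End T) : T ⟶ T)) := by
      intro p
      induction p with
      | zero =>
        have h6 : F.map (((ξ ^ 0 : End T)) : T ⟶ T) = 𝟙 _ := by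
          rw [pow_zero]
          exact F.map_id T
        rw [h6, Category.comp_id, Category.id_comp, hWa]
        simp only [Nat.cast_zero, mul_zero, zero_sub, neg_smul, natCast_zsmul]
        rw [sub_eq_add_neg]
      | succ p ih =>
        have h6 : F.map (((ξ ^ (p + 1) : End T)) : T ⟶ T) =
            F.map ((ξ ^ p : End T) : T ⟶ T) ≫ F.map (ξ : T ⟶ T) := by
          rw [pow_succ']
          exact F.map_comp _ _
        rw [h6, Category.assoc, hW]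
        simp only [Preadditive.comp_add, Preadditive.comp_nsmul]
        have h7 : F.map a ≫ F.map ((ξ ^ p : End T) : T ⟶ T) ≫ WT ≫ F.map (ξ : T ⟶ T) =
            (F.map a ≫ F.map ((ξ ^ p : End T) : T ⟶ T) ≫ WT) ≫ F.map (ξ : T ⟶ T) := by
          simp only [Category.assoc]
        rw [h7, ih, Preadditive.add_comp, Preadditive.zsmul_comp]
        simp only [Category.assoc]
        rw [add_assoc]
        congr 1
        push_cast
        rw [← natCast_zsmul, ← add_smul]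
        congr 1
        push_cast
        ring
    have h6 : ∀ p ∈ Finset.HasAntidiagonal.antidiagonal d, F.map ((cmp a b (ξ ^ p.2 * c * ξ ^ p.1) : End S) :
        S ⟶ S) = WS ≫ F.map (r • 𝟙 S) + ((p.1 : ℤ) - (p.2 : ℤ)) • F.map (r • 𝟙 S) := by
      intro p hp
      rw [Finset.HasAntidiagonal.mem_antidiagonal] at hp
      have h7 : ((cmp a b (ξ ^ p.2 * c * ξ ^ p.1) : End S) : S ⟶ S) =
          a ≫ ((ξ ^ p.1 : End T) : T ⟶ T) ≫ (c : T ⟶ T) ≫ ((ξ ^ p.2 : End T) : T ⟶ T) ≫ b := by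
        change a ≫ (((ξ ^ p.1 : End T) : T ⟶ T) ≫ ((c : T ⟶ T) ≫ ((ξ ^ p.2 : End T) : T ⟶ T)))
          ≫ b = _
        simp only [Category.assoc]
      have h8 : a ≫ ((ξ ^ p.1 : End T) : T ⟶ T) ≫ ((ξ ^ p.2 : End T) : T ⟶ T) ≫ b =
          r • 𝟙 S := by
        rw [← hab, ← hp, add_comm, pow_add]
        change _ = a ≫ (((ξ ^ p.1 : End T) : T ⟶ T) ≫ ((ξ ^ p.2 : End T) : T ⟶ T)) ≫ b
        simp only [Category.assoc]
      have h9 : F.map a ≫ F.map ((ξ ^ p.1 : End T) : T ⟶ T) ≫ F.map ((ξ ^ p.2 : End T) : T ⟶ T)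
          ≫ F.map b = F.map (r • 𝟙 S) := by
        rw [← h8, F.map_comp, F.map_comp, F.map_comp]
      rw [h7, F.map_comp, F.map_comp, F.map_comp, F.map_comp, hcr]
      have h10 : F.map a ≫ F.map ((ξ ^ p.1 : End T) : T ⟶ T) ≫ WT ≫
          F.map ((ξ ^ p.2 : End T) : T ⟶ T) ≫ F.map b =
          (F.map a ≫ F.map ((ξ ^ p.1 : End T) : T ⟶ T) ≫ WT) ≫
          F.map ((ξ ^ p.2 : End T) : T ⟶ T) ≫ F.map b := by
        simp only [Category.assoc]
      rw [h10, h5, Preadditive.add_comp, Preadditive.zsmul_comp]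
      simp only [Category.assoc]
      rw [h9]
      congr 2
      rw [← hp]
      push_cast
      ring
    have h7 : F.map ((cexp a b ξ d c : End S) : S ⟶ S) = (d + 1) • (WS ≫ F.map (r • 𝟙 S)) := by
      have h8 : F.map ((cexp a b ξ d c : End S) : S ⟶ S) = ∑ p ∈ Finset.HasAntidiagonal.antidiagonal d,
          F.map ((cmp a b (ξ ^ p.2 * c * ξ ^ p.1) : End S) : S ⟶ S) := by
        change F.map (∑ p ∈ Finset.HasAntidiagonal.antidiagonal d,
          ((cmp a b (ξ ^ p.2 * c * ξ ^ p.1) : End S) : S ⟶ S)) = _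
        exact F.map_sum _ _
      rw [h8, Finset.sum_congr rfl h6, Finset.sum_add_distrib, Finset.sum_const,
        Finset.Nat.card_antidiagonal, ← Finset.sum_smul]
      have h9 : ∑ p ∈ Finset.HasAntidiagonal.antidiagonal d, ((p.1 : ℤ) - (p.2 : ℤ)) = 0 := by
        rw [Finset.sum_sub_distrib, sub_eq_zero]
        exact (Finset.Nat.sum_antidiagonal_swap (n := d) (f := fun p => ((p.1 : ℕ) : ℤ))).symm
      rw [h9, zero_smul, add_zero]
    have h8 : ((s⁻¹ • cexp a b ξ d c : End S) : S ⟶ S) =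
        ((cexp a b ξ d c : End S) : S ⟶ S) ≫ (s⁻¹ • 𝟙 S) := by
      rw [Linear.comp_smul, Category.comp_id]
    rw [h8, F.map_comp, h7, Preadditive.nsmul_comp, Category.assoc, ← F.map_comp,
      ← Preadditive.comp_nsmul, ← F.map_nsmul]
    have h9 : (d + 1) • ((r • 𝟙 S) ≫ (s⁻¹ • 𝟙 S)) = 𝟙 S := by
      rw [Linear.smul_comp, Category.id_comp, smul_smul, ← Nat.cast_smul_eq_nsmul ℚ, smul_smul,
        ← mul_assoc, ← hs, mul_inv_cancel₀ hs0, one_smul]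
    rw [h9, F.map_id, Category.comp_id]

end Exp

end Pool.Agent.U724.JM
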