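import Pool.Agent.U724.JM.Alg

/-!
# The theorem of Jacobson and Morozov and the functional calculus
-/

set_option autoImplicit false

open Polynomial

namespace Pool.Agent.U724.JM

section Semi

variable {A : Type*} [Ring A] [Algebra ℚ A]

lemma semi {a x y : A} (h : a * x = y * a) (q : ℚ[X]) : a * aeval x q = aeval y q * a := by
  induction q using Polynomial.induction_on' with
  | add p q hp hq => rw [map_add, map_add, mul_add, add_mul, hp, hq]
  | monomial n c =>
    have h1 : SemiconjBy a x y := h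
    have h2 : a * x ^ n = y ^ n * a := h1.pow_right n
    rw [aeval_monomial, aeval_monomial, ← mul_assoc, ← Algebra.commutes, mul_assoc, h2, mul_assoc]

/-- The theorem of Jacobson and Morozov. -/
theorem morozov {e z h : A} {N : ℕ} (hN : e ^ N = 0)
    (h1 : e * z = z * e + h) (h2 : h * e = e * h + 2 * e) :
    ∃ f : A, e * f = f * e + h ∧ h * f = f * h - 2 * f := by
  obtain ⟨E, hE, eN⟩ : ∃ E : Module.End ℚ A, (∀ x, E x = e * x - x * e) ∧ IsNilpotent E := by
    refine ⟨LinearMap.mulLeft ℚ e - LinearMap.mulRight ℚ e, fun x => rfl, ?_⟩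
    refine Commute.isNilpotent_sub (LinearMap.commute_mulLeft_right e e) ?_ ?_
    · exact ⟨N, by rw [LinearMap.pow_mulLeft, hN, LinearMap.mulLeft_zero_eq_zero]⟩
    · exact ⟨N, by rw [LinearMap.pow_mulRight, hN, LinearMap.mulRight_zero_eq_zero]⟩
  obtain ⟨Z, hZ⟩ : ∃ Z : Module.End ℚ A, ∀ x, Z x = z * x - x * z :=
    ⟨LinearMap.mulLeft ℚ z - LinearMap.mulRight ℚ z, fun x => rfl⟩
  obtain ⟨H, hH⟩ : ∃ H : Module.End ℚ A, ∀ x, H x = h * x - x * h :=
    ⟨LinearMap.mulLeft ℚ h - LinearMap.mulRight ℚ h, fun x => rfl⟩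
  have e1 : E * Z = Z * E + H := by
    ext x
    rw [Module.End.mul_apply, LinearMap.add_apply, Module.End.mul_apply, hE, hZ, hZ, hE, hH]
    linear_combination (norm := noncomm_ring) h1 * x - x * h1
  have e2 : H * E = E * H + 2 * E := by
    ext x
    have h3 : (2 * E : Module.End ℚ A) = E + E := two_mul E
    rw [h3, Module.End.mul_apply, LinearMap.add_apply, LinearMap.add_apply, Module.End.mul_apply,
      hH, hE, hE, hH]
    linear_combination (norm := noncomm_ring) h2 * x - x * h2
  obtain ⟨M, hM⟩ := eN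
  obtain ⟨w, hw0⟩ : ∃ w : A, w = h * z - z * h + 2 * z := ⟨_, rfl⟩
  have hEw : E w = 0 := by
    rw [hE, hw0]
    linear_combination (norm := noncomm_ring) h * h1 - h2 * z - h1 * h + z * h2
  have hw : E ^ (0 + 1) • w = 0 := by
    rw [zero_add, pow_one]
    exact hEw
  have hk := prod_kills e1 e2 hM (k := 0) hw
  set P : ℚ[X] := ∏ i ∈ Finset.Ico 0 M, (X - C (i : ℚ)) with hP
  have hk2 : aeval H P w = 0 := hk
  obtain ⟨q, hq⟩ := X_sub_C_dvd_sub_C_eval (a := (-2 : ℚ)) (p := P)
  have hne : P.eval (-2) ≠ 0 := by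
    rw [hP, eval_prod, Finset.prod_ne_zero_iff]
    intro i _
    rw [eval_sub, eval_X, eval_C]
    have : (0 : ℚ) ≤ (i : ℚ) := Nat.cast_nonneg i
    linarith
  have h3 := congrArg (fun p => aeval H p w) hq
  simp only [map_sub, map_mul, aeval_X, aeval_C, Module.End.mul_apply, LinearMap.sub_apply, hk2,
    Module.algebraMap_end_apply, zero_sub] at h3
  obtain ⟨y, hy0⟩ : ∃ y : A, y = (P.eval (-2))⁻¹ • (aeval H q w) := ⟨_, rfl⟩
  have hy : H y + 2 * y = -w := by
    have h4 : (2 : A) * y = (2 : ℚ) • y := by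
      rw [two_mul, two_smul]
    rw [h4, hy0]
    have h5 : H (aeval H q w) + (2 : ℚ) • (aeval H q w) = -(P.eval (-2) • w) := by
      rw [h3, neg_smul, sub_neg_eq_add]
    rw [map_smul, smul_comm (2 : ℚ), ← smul_add, h5, smul_neg, smul_smul, inv_mul_cancel₀ hne,
      one_smul]
  have hy2 : E y = 0 := by
    have h4 : E * H = (H - 2) * E := by
      rw [sub_mul, e2, add_sub_cancel_right]
    have h5 := congrArg (fun g : Module.End ℚ A => g w) (semi h4 q)
    simp only [Module.End.mul_apply] at h5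
    rw [hy0, map_smul, h5, hEw, map_zero, smul_zero]
  refine ⟨z + y, ?_, ?_⟩
  · rw [hE] at hy2
    linear_combination (norm := noncomm_ring) h1 + hy2
  · rw [hH, hw0] at hy
    linear_combination (norm := noncomm_ring) hy

end Semi

section Prod

lemma prod_dvd {ι : Type*} {s : Finset ι} {v : ι → ℚ} (hv : Set.InjOn v s) {q : ℚ[X]}
    (hq : ∀ i ∈ s, q.eval (v i) = 0) : ∏ i ∈ s, (X - C (v i)) ∣ q := by
  refine Finset.prod_dvd_of_coprime (fun i hi j hj hij => ?_) fun i hi => ?_
  · exact isCoprime_X_sub_C_of_isUnit_sub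
      (isUnit_iff_ne_zero.2 (sub_ne_zero.2 fun h => hij (hv hi hj h)))
  · exact dvd_iff_isRoot.2 (hq i hi)

variable {A : Type*} [Ring A] {e f h : A}

lemma h_pow (h3 : h * f = f * h - 2 * f) (m : ℕ) : h * f ^ m = f ^ m * (h - 2 * m) := by
  induction m with
  | zero => simp
  | succ m ih =>
    have h9 : (m : A) * f = f * m := (Nat.cast_commute m f).eq
    rw [pow_succ]
    push_cast
    linear_combination (norm := noncomm_ring) ih * f + f ^ m * h3 - f ^ m * (2 * h9)

lemma ef_pow (h1 : e * f = f * e + h) (h3 : h * f = f * h - 2 * f) {u : A} (hu : e * u = 0)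
    (n : ℕ) : e * (f ^ (n + 1) * u) = (n + 1 : A) * (f ^ n * ((h - n) * u)) := by
  have h4 : f * e = e * f + (-h) := by rw [h1]; abel
  have h5 : (-h) * f = f * (-h) + 2 * f := by
    linear_combination (norm := noncomm_ring) -h3
  have h6 := pow_comm h4 h5 n
  have h7 := h_pow h3 n
  have h10 : (n : A) * f ^ n = f ^ n * n := (Nat.cast_commute n (f ^ n)).eq
  have h9 : (-h - n) * f ^ n = -(f ^ n * (h - n)) := by
    linear_combination (norm := noncomm_ring) -h7 - h10
  rw [h9] at h6
  linear_combination (norm := noncomm_ring) -h6 * u + f ^ (n + 1) * hu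

end Prod

end Pool.Agent.U724.JM
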