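import Pool.Agent.U724.JM.Mor

/-!
# The functional calculus of the semisimple element of an `sl₂`-triple
-/

set_option autoImplicit false

open Polynomial

namespace Pool.Agent.U724.JM

section Prod

variable {A : Type*} [Ring A] [Algebra ℚ A] {e f h : A}

lemma shift_pow (h3 : h * f = f * h - 2 * f) (k : ℕ) (q : ℚ[X]) :
    aeval h q * f ^ k = f ^ k * aeval h (q.comp (X - C (2 * k : ℚ))) := by
  have h4 : f ^ k * (h - 2 * k) = h * f ^ k := (h_pow h3 k).symm
  rw [← semi h4 q, aeval_comp]
  congr 2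
  have h5 : algebraMap ℚ A 2 = 2 := map_ofNat _ 2
  simp [h5]

/-- The polynomials which give `e ^ k f ^ k` on the kernel of `e`. -/
noncomputable def polQ : ℕ → ℚ[X]
  | 0 => 1
  | k + 1 => polQ k * (C (k + 1 : ℚ) * (X - C (k : ℚ)))

lemma ef_polQ (h1 : e * f = f * e + h) (h2 : h * e = e * h + 2 * e)
    (h3 : h * f = f * h - 2 * f) (k : ℕ) :
    ∀ {u : A}, e * u = 0 → e ^ k * (f ^ k * u) = aeval h (polQ k) * u := by
  induction k with
  | zero => intro u _; simp [polQ]
  | succ k ih =>
    intro u hu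
    have h4 : e * ((h - k) * u) = 0 := by
      have h5 : (k : A) * e = e * k := (Nat.cast_commute k e).eq
      linear_combination (norm := noncomm_ring) (h - k - 2) * hu - h2 * u + h5 * u
    rw [pow_succ e k, mul_assoc, ef_pow h1 h3 hu k]
    have h6 : (k + 1 : A) = algebraMap ℚ A (k + 1) := by simp
    have h7 : (k : A) = algebraMap ℚ A k := by simp
    rw [h6, ← mul_assoc, ← Algebra.commutes, mul_assoc, ih h4, polQ]
    rw [map_mul, map_mul, map_sub, aeval_X, aeval_C, aeval_C, h7]
    rw [mul_assoc (aeval h (polQ k)), mul_assoc (algebraMap ℚ A (k + 1)),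
      ← mul_assoc (algebraMap ℚ A (k + 1)), ← mul_assoc (aeval h (polQ k)), Algebra.commutes,
      mul_assoc]

lemma coprime_polQ (k N : ℕ) : ∀ j ≤ k, IsCoprime (polQ j)
    (∏ i ∈ Finset.Ico k N, (X - C (i : ℚ))) := by
  intro j
  induction j with
  | zero => intro _; exact isCoprime_one_left
  | succ j ih =>
    intro hj
    rw [polQ]
    refine IsCoprime.mul_left (ih (by omega)) (IsCoprime.mul_left ?_ ?_)
    · have hu : IsUnit (C (j + 1 : ℚ)) := isUnit_C.2 (isUnit_iff_ne_zero.2 (by positivity))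
      obtain ⟨b, hb⟩ := isUnit_iff_exists_inv'.1 hu
      exact ⟨b, 0, by rw [hb, zero_mul, add_zero]⟩
    · refine IsCoprime.prod_right fun i hi => ?_
      refine isCoprime_X_sub_C_of_isUnit_sub (isUnit_iff_ne_zero.2 (sub_ne_zero.2 ?_))
      rw [Finset.mem_Ico] at hi
      intro h
      have := Nat.cast_injective h
      omega

/-- The minimal polynomial of the semisimple element. -/
noncomputable def polP (N : ℕ) : ℚ[X] := ∏ i ∈ Finset.Ioo (-N : ℤ) N, (X - C (i : ℚ))

lemma inj_cast (s : Set ℤ) : Set.InjOn (fun i : ℤ => (i : ℚ)) s :=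
  fun _ _ _ _ h => Int.cast_injective h

lemma polP_kills (h1 : e * f = f * e + h) (h2 : h * e = e * h + 2 * e)
    (h3 : h * f = f * h - 2 * f) {N : ℕ} (hN : e ^ N = 0) :
    ∀ k ≤ N, ∀ v : A, e ^ k * v = 0 → aeval h (polP N) * v = 0 := by
  intro k
  induction k with
  | zero => intro _ v hv; rw [pow_zero, one_mul] at hv; rw [hv, mul_zero]
  | succ k ih =>
    intro hk v hv
    obtain ⟨u, hu0⟩ : ∃ u, u = e ^ k * v := ⟨_, rfl⟩
    have hu : e * u = 0 := by rw [hu0, ← mul_assoc, ← pow_succ', hv]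
    have hR : aeval h (∏ i ∈ Finset.Ico k N, (X - C (i : ℚ))) * u = 0 := by
      have := prod_kills (V := A) h1 h2 hN (k := k) (u := v) hv
      rw [hu0]
      exact this
    obtain ⟨a, b, hab⟩ := coprime_polQ k N k le_rfl
    obtain ⟨t, ht0⟩ : ∃ t, t = aeval h a * u := ⟨_, rfl⟩
    have h4 : e * h = (h - 2) * e := by
      linear_combination (norm := noncomm_ring) -h2
    have ht : e * t = 0 := by
      rw [ht0, ← mul_assoc, semi h4, mul_assoc, hu, mul_zero]
    have hRt : aeval h (∏ i ∈ Finset.Ico k N, (X - C (i : ℚ))) * t = 0 := by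
      rw [ht0, ← mul_assoc, ← map_mul, mul_comm, map_mul, mul_assoc, hR, mul_zero]
    have hu1 : e ^ k * (f ^ k * t) = u := by
      rw [ef_polQ h1 h2 h3 k ht]
      have h5 := congrArg (fun p => aeval h p * u) hab
      simp only [map_add, map_mul, map_one, one_mul, add_mul] at h5
      rw [mul_assoc (aeval h b), hR, mul_zero, add_zero] at h5
      rw [ht0, ← mul_assoc, ← map_mul, mul_comm, map_mul]
      exact h5
    have h5 := ih (by omega) (v - f ^ k * t) (by rw [mul_sub, hu1, ← hu0, sub_self])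
    have h6 : aeval h (polP N) * (f ^ k * t) = 0 := by
      rw [← mul_assoc, shift_pow h3 k, mul_assoc]
      obtain ⟨c, hc⟩ : (∏ i ∈ Finset.Ico k N, (X - C (i : ℚ))) ∣
          (polP N).comp (X - C (2 * k : ℚ)) := by
        refine prod_dvd (v := fun i : ℕ => (i : ℚ)) (fun _ _ _ _ h => Nat.cast_injective h)
          fun i hi => ?_
        rw [Finset.mem_Ico] at hi
        rw [eval_comp, polP, eval_prod]
        refine Finset.prod_eq_zero (i := (i : ℤ) - 2 * k) ?_ ?_
        · rw [Finset.mem_Ioo]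
          constructor
          · omega
          · omega
        · simp
      rw [hc, mul_comm, map_mul, mul_assoc, hRt, mul_zero, mul_zero]
    rw [mul_sub, h6, sub_zero] at h5
    exact h5

/-- The functional calculus. -/
lemma calc_zero (h1 : e * f = f * e + h) (h2 : h * e = e * h + 2 * e)
    (h3 : h * f = f * h - 2 * f) {N : ℕ} (hN : e ^ N = 0) {q : ℚ[X]}
    (hq : ∀ i : ℤ, i ∈ Finset.Ioo (-N : ℤ) N → q.eval (i : ℚ) = 0) : aeval h q = 0 := by
  obtain ⟨c, hc⟩ : polP N ∣ q := prod_dvd (inj_cast _) hq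
  have h4 := polP_kills h1 h2 h3 hN N le_rfl 1 (by rw [hN, zero_mul])
  rw [mul_one] at h4
  rw [hc, map_mul, h4, zero_mul]

end Prod

end Pool.Agent.U724.JM
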