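import Pool.Agent.U724.JM.Fib
import Pool.Agent.U724.JM.Dcm

/-!
# Solutions on tensor products and on their factors
-/

set_option autoImplicit false
set_option linter.unusedSectionVars false

open CategoryTheory Limits MonoidalCategory Module
open Pool.Agent.U724.PH Pool.Agent.U724.CH
open Functor.LaxMonoidal Functor.OplaxMonoidal

namespace Pool.Agent.U724.JM

universe v u w t

variable {C : Type u} [Category.{v} C] [Preadditive C] [Linear ℚ C] [MonoidalCategory C]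
  [MonoidalPreadditive C] [MonoidalLinear ℚ C]
  {K : Type w} [Field K] {F : C ⥤ ModuleCat.{w} K} [F.Monoidal] [F.Additive]

section Hom

variable {S Y T : C} (φ : T ≅ S ⊗ Y)

/-- The action on the first factor. -/
def lft : End S →+* End T where
  toFun x := (φ.hom ≫ (x : S ⟶ S) ▷ Y ≫ φ.inv : T ⟶ T)
  map_one' := by
    change φ.hom ≫ (𝟙 S) ▷ Y ≫ φ.inv = 𝟙 T
    simp
  map_mul' x y := by
    change φ.hom ≫ ((y : S ⟶ S) ≫ (x : S ⟶ S)) ▷ Y ≫ φ.inv =
      (φ.hom ≫ (y : S ⟶ S) ▷ Y ≫ φ.inv) ≫ (φ.hom ≫ (x : S ⟶ S) ▷ Y ≫ φ.inv)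
    simp
  map_zero' := by
    change φ.hom ≫ (0 : S ⟶ S) ▷ Y ≫ φ.inv = 0
    simp
  map_add' x y := by
    change φ.hom ≫ ((x : S ⟶ S) + (y : S ⟶ S)) ▷ Y ≫ φ.inv = _
    rw [MonoidalPreadditive.add_whiskerRight, Preadditive.add_comp, Preadditive.comp_add]

/-- The action on the second factor. -/
def rgt : End Y →+* End T where
  toFun x := (φ.hom ≫ S ◁ (x : Y ⟶ Y) ≫ φ.inv : T ⟶ T)
  map_one' := by
    change φ.hom ≫ S ◁ (𝟙 Y) ≫ φ.inv = 𝟙 T
    simp
  map_mul' x y := by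
    change φ.hom ≫ S ◁ ((y : Y ⟶ Y) ≫ (x : Y ⟶ Y)) ≫ φ.inv =
      (φ.hom ≫ S ◁ (y : Y ⟶ Y) ≫ φ.inv) ≫ (φ.hom ≫ S ◁ (x : Y ⟶ Y) ≫ φ.inv)
    simp
  map_zero' := by
    change φ.hom ≫ S ◁ (0 : Y ⟶ Y) ≫ φ.inv = 0
    simp
  map_add' x y := by
    change φ.hom ≫ S ◁ ((x : Y ⟶ Y) + (y : Y ⟶ Y)) ≫ φ.inv = _
    rw [MonoidalPreadditive.whiskerLeft_add, Preadditive.add_comp, Preadditive.comp_add]

lemma lft_apply (x : End S) : (lft φ x : T ⟶ T) = φ.hom ≫ (x : S ⟶ S) ▷ Y ≫ φ.inv := rfl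

lemma rgt_apply (x : End Y) : (rgt φ x : T ⟶ T) = φ.hom ≫ S ◁ (x : Y ⟶ Y) ≫ φ.inv := rfl

lemma lft_rgt (x : End S) (y : End Y) : lft φ x * rgt φ y = rgt φ y * lft φ x := by
  change (φ.hom ≫ S ◁ (y : Y ⟶ Y) ≫ φ.inv) ≫ (φ.hom ≫ (x : S ⟶ S) ▷ Y ≫ φ.inv) =
    (φ.hom ≫ (x : S ⟶ S) ▷ Y ≫ φ.inv) ≫ (φ.hom ≫ S ◁ (y : Y ⟶ Y) ≫ φ.inv)
  simp only [Category.assoc, Iso.inv_hom_id_assoc]
  rw [whisker_exchange_assoc]

variable (F)

/-- The Künneth isomorphism. -/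
noncomputable def kun : F.obj S ⊗ F.obj Y ⟶ F.obj T := μ F S Y ≫ F.map φ.inv

lemma kun_epi {W : ModuleCat.{w} K} {f g : F.obj T ⟶ W} (h : kun F φ ≫ f = kun F φ ≫ g) :
    f = g := by
  have h1 : (F.map φ.hom ≫ δ F S Y) ≫ kun F φ = 𝟙 _ := by
    rw [kun, Category.assoc, Functor.Monoidal.δ_μ_assoc, ← F.map_comp, φ.hom_inv_id, F.map_id]
  calc f = ((F.map φ.hom ≫ δ F S Y) ≫ kun F φ) ≫ f := by rw [h1, Category.id_comp]
    _ = ((F.map φ.hom ≫ δ F S Y) ≫ kun F φ) ≫ g := by rw [Category.assoc, h, ← Category.assoc]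
    _ = g := by rw [h1, Category.id_comp]

lemma kun_lft (x : End S) : kun F φ ≫ F.map (lft φ x : T ⟶ T) =
    (F.map (x : S ⟶ S) ▷ F.obj Y) ≫ kun F φ := by
  rw [kun, lft_apply, Category.assoc, ← F.map_comp, Iso.inv_hom_id_assoc, F.map_comp,
    μ_natural_left_assoc]

lemma kun_rgt (x : End Y) : kun F φ ≫ F.map (rgt φ x : T ⟶ T) =
    (F.obj S ◁ F.map (x : Y ⟶ Y)) ≫ kun F φ := by
  rw [kun, rgt_apply, Category.assoc, ← F.map_comp, Iso.inv_hom_id_assoc, F.map_comp,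
    μ_natural_right_assoc]

end Hom

section Prod

variable {S Y T : C} {φ : T ≅ S ⊗ Y} {eS zS : End S} {eY zY : End Y} {WS : F.obj S ⟶ F.obj S}
  {WY : F.obj Y ⟶ F.obj Y} {WT : F.obj T ⟶ F.obj T}

/-- The weight operator of the tensor product. -/
def IsSumW (F : C ⥤ ModuleCat.{w} K) [F.Monoidal] (φ : T ≅ S ⊗ Y) (WS : F.obj S ⟶ F.obj S)
    (WY : F.obj Y ⟶ F.obj Y) (WT : F.obj T ⟶ F.obj T) : Prop :=
  kun F φ ≫ WT = (WS ▷ F.obj Y + F.obj S ◁ WY) ≫ kun F φ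

/-- The solutions for the factors give one for the tensor product. -/
theorem Solves.prod (hWT : IsSumW F φ WS WY WT) (hS : Solves F eS zS WS)
    (hY : Solves F eY zY WY) : Solves F (lft φ eS + rgt φ eY) (lft φ zS + rgt φ zY) WT := by
  have h1 : (lft φ eS + rgt φ eY) * (lft φ zS + rgt φ zY) -
      (lft φ zS + rgt φ zY) * (lft φ eS + rgt φ eY) =
        lft φ (eS * zS - zS * eS) + rgt φ (eY * zY - zY * eY) := by
    rw [map_sub, map_sub, map_mul, map_mul, map_mul, map_mul]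
    linear_combination (norm := noncomm_ring) lft_rgt φ eS zY - lft_rgt φ zS eY
  constructor
  · rw [h1]
    have h2 := congrArg (lft φ) hS.eq
    have h3 := congrArg (rgt φ) hY.eq
    rw [map_mul, map_add, map_mul, map_mul, map_ofNat] at h2 h3
    linear_combination (norm := noncomm_ring) h2 + h3 + lft_rgt φ (eS * zS - zS * eS) eY -
      lft_rgt φ eS (eY * zY - zY * eY)
  · rw [h1]
    apply kun_epi F φ
    have h4 : F.map ((lft φ (eS * zS - zS * eS) + rgt φ (eY * zY - zY * eY) : End T) : T ⟶ T) =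
        F.map (lft φ (eS * zS - zS * eS) : T ⟶ T) +
          F.map (rgt φ (eY * zY - zY * eY) : T ⟶ T) := F.map_add
    rw [h4, Preadditive.comp_add, kun_lft, kun_rgt, hS.real, hY.real, hWT,
      Preadditive.add_comp]

/-- A solution for the tensor product gives one for the first factor. -/
theorem Solves.fst {z : End T} (hWT : IsSumW F φ WS WY WT)
    (h : Solves F (lft φ eS + rgt φ eY) z WT) {d : ℕ} {r : ℚ} (hr : r ≠ 0) (α : 𝟙_ C ⟶ Y)
    (β : Y ⟶ 𝟙_ C) (hαβ : α ≫ ((eY ^ d : End Y) : Y ⟶ Y) ≫ β = r • 𝟙 (𝟙_ C))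
    (hd : eY ^ (d + 1) = 0)
    (hW : F.map (eY : Y ⟶ Y) ≫ WY = WY ≫ F.map (eY : Y ⟶ Y) + 2 • F.map (eY : Y ⟶ Y))
    (hα : F.map α ≫ WY = -(d • F.map α)) : ∃ z' : End S, Solves F eS z' WS := by
  refine h.fib (a := (ρ_ S).inv ≫ S ◁ α ≫ φ.inv) (b := φ.hom ≫ S ◁ β ≫ (ρ_ S).hom) (d := d)
    hr ?_ ?_ ?_ (lft_rgt φ eS eY) ?_ ?_ ?_ ?_
  · rw [← map_pow, rgt_apply]
    simp only [Category.assoc, Iso.inv_hom_id_assoc]
    rw [← MonoidalCategory.whiskerLeft_comp_assoc, ← MonoidalCategory.whiskerLeft_comp_assoc,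
      Category.assoc, hαβ, MonoidalLinear.whiskerLeft_smul, MonoidalCategory.whiskerLeft_id,
      Linear.smul_comp, Category.id_comp, Linear.comp_smul, Iso.inv_hom_id]
  · rw [lft_apply]
    simp only [Category.assoc, Iso.inv_hom_id_assoc]
    rw [whisker_exchange_assoc, ← rightUnitor_inv_naturality_assoc]
  · rw [lft_apply]
    simp only [Category.assoc, Iso.inv_hom_id_assoc]
    rw [← whisker_exchange_assoc, rightUnitor_naturality]
  · rw [← map_pow, hd, map_zero, comp_zero]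
  · rw [← map_pow, hd, map_zero]
    exact zero_comp
  · apply kun_epi F φ
    have hWT2 : kun F φ ≫ WT = (WS ▷ F.obj Y + F.obj S ◁ WY) ≫ kun F φ := hWT
    rw [← Category.assoc, kun_rgt, Category.assoc, hWT2, Preadditive.comp_add,
      reassoc_of% hWT2, kun_rgt, Preadditive.comp_nsmul, kun_rgt]
    simp only [Preadditive.add_comp, Preadditive.comp_add, Category.assoc]
    rw [← whisker_exchange_assoc, ← MonoidalCategory.whiskerLeft_comp_assoc, hW,
      MonoidalPreadditive.whiskerLeft_add, Preadditive.add_comp,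
      MonoidalCategory.whiskerLeft_comp_assoc]
    have h3 : F.obj S ◁ (2 • F.map (eY : Y ⟶ Y)) = 2 • F.obj S ◁ F.map (eY : Y ⟶ Y) :=
      (tensorLeft (F.obj S)).map_nsmul
    rw [h3, Preadditive.nsmul_comp, add_assoc]
  · have h1 : F.map ((ρ_ S).inv ≫ S ◁ α ≫ φ.inv) =
        (ρ_ (F.obj S)).inv ≫ (F.obj S ◁ (ε F ≫ F.map α)) ≫ kun F φ := by
      rw [kun, MonoidalCategory.whiskerLeft_comp, Category.assoc, μ_natural_right_assoc,
        ← F.map_comp]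
      have h2 : (ρ_ (F.obj S)).inv ≫ F.obj S ◁ ε F ≫ μ F S (𝟙_ C) = F.map (ρ_ S).inv := by
        simp
      rw [reassoc_of% h2, ← F.map_comp]
    rw [h1]
    simp only [Category.assoc]
    have h6 : (ρ_ (F.obj S)).inv ≫ F.obj S ◁ (ε F ≫ F.map α) ≫ WS ▷ F.obj Y ≫ kun F φ =
        WS ≫ (ρ_ (F.obj S)).inv ≫ F.obj S ◁ (ε F ≫ F.map α) ≫ kun F φ := by
      rw [whisker_exchange_assoc, ← rightUnitor_inv_naturality_assoc]
    have h7 : (ρ_ (F.obj S)).inv ≫ F.obj S ◁ (ε F ≫ F.map α) ≫ F.obj S ◁ WY ≫ kun F φ =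
        -(d • (ρ_ (F.obj S)).inv ≫ F.obj S ◁ (ε F ≫ F.map α) ≫ kun F φ) := by
      rw [← MonoidalCategory.whiskerLeft_comp_assoc, Category.assoc, hα]
      have h3 : F.obj S ◁ (ε F ≫ (-(d • F.map α))) = -(d • F.obj S ◁ (ε F ≫ F.map α)) := by
        rw [Preadditive.comp_neg, Preadditive.comp_nsmul]
        have h4 : F.obj S ◁ (-(d • (ε F ≫ F.map α))) = -(F.obj S ◁ (d • (ε F ≫ F.map α))) :=
          (tensorLeft (F.obj S)).map_neg
        have h5 : F.obj S ◁ (d • (ε F ≫ F.map α)) = d • (F.obj S ◁ (ε F ≫ F.map α)) :=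
          (tensorLeft (F.obj S)).map_nsmul
        rw [h4, h5]
      rw [h3, Preadditive.neg_comp, Preadditive.comp_neg, Preadditive.nsmul_comp,
        Preadditive.comp_nsmul]
    rw [hWT, Preadditive.add_comp, Preadditive.comp_add, Preadditive.comp_add, h6, h7,
      ← sub_eq_add_neg]

/-- A solution for the tensor product gives one for the second factor. -/
theorem Solves.snd {z : End T} (hWT : IsSumW F φ WS WY WT)
    (h : Solves F (lft φ eS + rgt φ eY) z WT) {d : ℕ} {r : ℚ} (hr : r ≠ 0) (α : 𝟙_ C ⟶ S)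
    (β : S ⟶ 𝟙_ C) (hαβ : α ≫ ((eS ^ d : End S) : S ⟶ S) ≫ β = r • 𝟙 (𝟙_ C))
    (hd : eS ^ (d + 1) = 0)
    (hW : F.map (eS : S ⟶ S) ≫ WS = WS ≫ F.map (eS : S ⟶ S) + 2 • F.map (eS : S ⟶ S))
    (hα : F.map α ≫ WS = -(d • F.map α)) : ∃ z' : End Y, Solves F eY z' WY := by
  rw [add_comm] at h
  refine h.fib (a := (λ_ Y).inv ≫ α ▷ Y ≫ φ.inv) (b := φ.hom ≫ β ▷ Y ≫ (λ_ Y).hom) (d := d)
    hr ?_ ?_ ?_ (lft_rgt φ eS eY).symm ?_ ?_ ?_ ?_
  · rw [← map_pow, lft_apply]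
    simp only [Category.assoc, Iso.inv_hom_id_assoc]
    rw [← comp_whiskerRight_assoc, ← comp_whiskerRight_assoc,
      Category.assoc, hαβ, MonoidalLinear.smul_whiskerRight, MonoidalCategory.id_whiskerRight,
      Linear.smul_comp, Category.id_comp, Linear.comp_smul, Iso.inv_hom_id]
  · rw [rgt_apply]
    simp only [Category.assoc, Iso.inv_hom_id_assoc]
    rw [← whisker_exchange_assoc, ← leftUnitor_inv_naturality_assoc]
  · rw [rgt_apply]
    simp only [Category.assoc, Iso.inv_hom_id_assoc]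
    rw [whisker_exchange_assoc, leftUnitor_naturality]
  · rw [← map_pow, hd, map_zero, comp_zero]
  · rw [← map_pow, hd, map_zero]
    exact zero_comp
  · apply kun_epi F φ
    have hWT2 : kun F φ ≫ WT = (WS ▷ F.obj Y + F.obj S ◁ WY) ≫ kun F φ := hWT
    rw [← Category.assoc, kun_lft, Category.assoc, hWT2, Preadditive.comp_add,
      reassoc_of% hWT2, kun_lft, Preadditive.comp_nsmul, kun_lft]
    simp only [Preadditive.add_comp, Preadditive.comp_add, Category.assoc]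
    rw [whisker_exchange_assoc, ← comp_whiskerRight_assoc, hW,
      MonoidalPreadditive.add_whiskerRight, Preadditive.add_comp,
      comp_whiskerRight_assoc]
    have h3 : (2 • F.map (eS : S ⟶ S)) ▷ F.obj Y = 2 • F.map (eS : S ⟶ S) ▷ F.obj Y :=
      (tensorRight (F.obj Y)).map_nsmul
    rw [h3, Preadditive.nsmul_comp]
    abel
  · have h1 : F.map ((λ_ Y).inv ≫ α ▷ Y ≫ φ.inv) =
        (λ_ (F.obj Y)).inv ≫ ((ε F ≫ F.map α) ▷ F.obj Y) ≫ kun F φ := by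
      rw [kun, comp_whiskerRight, Category.assoc, μ_natural_left_assoc,
        ← F.map_comp]
      have h2 : (λ_ (F.obj Y)).inv ≫ ε F ▷ F.obj Y ≫ μ F (𝟙_ C) Y = F.map (λ_ Y).inv := by
        simp
      rw [reassoc_of% h2, ← F.map_comp]
    rw [h1]
    simp only [Category.assoc]
    have h6 : (λ_ (F.obj Y)).inv ≫ (ε F ≫ F.map α) ▷ F.obj Y ≫ F.obj S ◁ WY ≫ kun F φ =
        WY ≫ (λ_ (F.obj Y)).inv ≫ (ε F ≫ F.map α) ▷ F.obj Y ≫ kun F φ := by
      rw [← whisker_exchange_assoc, ← leftUnitor_inv_naturality_assoc]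
    have h7 : (λ_ (F.obj Y)).inv ≫ (ε F ≫ F.map α) ▷ F.obj Y ≫ WS ▷ F.obj Y ≫ kun F φ =
        -(d • (λ_ (F.obj Y)).inv ≫ (ε F ≫ F.map α) ▷ F.obj Y ≫ kun F φ) := by
      rw [← comp_whiskerRight_assoc, Category.assoc, hα]
      have h3 : (ε F ≫ (-(d • F.map α))) ▷ F.obj Y = -(d • ((ε F ≫ F.map α) ▷ F.obj Y)) := by
        rw [Preadditive.comp_neg, Preadditive.comp_nsmul]
        have h4 : (-(d • (ε F ≫ F.map α))) ▷ F.obj Y = -((d • (ε F ≫ F.map α)) ▷ F.obj Y) :=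
          (tensorRight (F.obj Y)).map_neg
        have h5 : (d • (ε F ≫ F.map α)) ▷ F.obj Y = d • ((ε F ≫ F.map α) ▷ F.obj Y) :=
          (tensorRight (F.obj Y)).map_nsmul
        rw [h4, h5]
      rw [h3, Preadditive.neg_comp, Preadditive.comp_neg, Preadditive.nsmul_comp,
        Preadditive.comp_nsmul]
    rw [hWT, Preadditive.add_comp, Preadditive.comp_add, Preadditive.comp_add, h6, h7,
      sub_eq_add_neg, add_comm]

end Prod

end Pool.Agent.U724.JM
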