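import Pool.Agent.U724.JM.Poly

/-!
# The projectors of an `sl₂`-triple
-/

set_option autoImplicit false

open Polynomial

namespace Pool.Agent.U724.JM

section

variable {A : Type*} [Ring A] [Algebra ℚ A]

/-- An `sl₂`-triple with `e ^ N = 0`. -/
structure Triple (e f h : A) (N : ℕ) : Prop where
  ef : e * f = f * e + h
  he : h * e = e * h + 2 * e
  hf : h * f = f * h - 2 * f
  nil : e ^ N = 0

/-- The projector to the part of weight `i`. -/
noncomputable def prj (h : A) (N : ℕ) (i : ℤ) : A :=
  aeval h (Lagrange.basis (Finset.Ioo (-N : ℤ) N) (fun j : ℤ => (j : ℚ)) i)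

lemma eval_basis (N : ℕ) (i : ℤ) {j : ℤ} (hj : j ∈ Finset.Ioo (-N : ℤ) N) :
    (Lagrange.basis (Finset.Ioo (-N : ℤ) N) (fun j : ℤ => (j : ℚ)) i).eval (j : ℚ) =
      if i = j then 1 else 0 := by
  split_ifs with h
  · subst h
    exact Lagrange.eval_basis_self (v := fun j : ℤ => (j : ℚ)) (inj_cast _) hj
  · exact Lagrange.eval_basis_of_ne (v := fun j : ℤ => (j : ℚ)) h hj

variable {e f h : A} {N : ℕ}

lemma Triple.zero (T : Triple e f h N) {q : ℚ[X]}
    (hq : ∀ i : ℤ, i ∈ Finset.Ioo (-N : ℤ) N → q.eval (i : ℚ) = 0) : aeval h q = 0 :=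
  calc_zero T.ef T.he T.hf T.nil hq

lemma Triple.congr (T : Triple e f h N) {p q : ℚ[X]}
    (hq : ∀ i : ℤ, i ∈ Finset.Ioo (-N : ℤ) N → p.eval (i : ℚ) = q.eval (i : ℚ)) :
    aeval h p = aeval h q := by
  rw [← sub_eq_zero, ← map_sub]
  exact T.zero fun i hi => by rw [eval_sub, hq i hi, sub_self]

lemma Triple.prj_mul (T : Triple e f h N) (i j : ℤ) :
    prj h N i * prj h N j = if i = j then prj h N i else 0 := by
  rw [prj, prj, ← map_mul]
  split_ifs with h1
  · subst h1
    refine T.congr fun l hl => ?_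
    rw [eval_mul, eval_basis N i hl]
    split_ifs <;> simp
  · refine T.zero fun l hl => ?_
    rw [eval_mul, eval_basis N i hl, eval_basis N j hl]
    by_cases h2 : i = l
    · rw [if_neg (show ¬ j = l from fun h3 => h1 (h2.trans h3.symm)), mul_zero]
    · rw [if_neg h2, zero_mul]

lemma Triple.prj_sum (T : Triple e f h N) :
    ∑ i ∈ Finset.Ioo (-N : ℤ) N, prj h N i = 1 := by
  simp_rw [prj]
  rw [← map_sum, ← map_one (aeval (R := ℚ) h)]
  refine T.congr fun l hl => ?_
  rw [eval_finsetSum, Finset.sum_congr rfl fun i _ => eval_basis N i hl, eval_one,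
    Finset.sum_ite_eq', if_pos hl]

lemma Triple.h_prj (T : Triple e f h N) (i : ℤ) : h * prj h N i = (i : A) * prj h N i := by
  have h3 : h * prj h N i =
      aeval h (X * Lagrange.basis (Finset.Ioo (-N : ℤ) N) (fun j : ℤ => (j : ℚ)) i) := by
    rw [map_mul, aeval_X, prj]
  have h4 : (i : A) * prj h N i =
      aeval h (C (i : ℚ) * Lagrange.basis (Finset.Ioo (-N : ℤ) N) (fun j : ℤ => (j : ℚ)) i) := by
    rw [map_mul, prj]
    simp
  rw [h3, h4]
  refine T.congr fun l hl => ?_
  rw [eval_mul, eval_mul, eval_X, eval_C, eval_basis N i hl]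
  split_ifs with h5
  · rw [h5]
  · simp

lemma Triple.sum_smul (T : Triple e f h N) :
    ∑ i ∈ Finset.Ioo (-N : ℤ) N, (i : A) * prj h N i = h := by
  have h1 : ∀ i ∈ Finset.Ioo (-N : ℤ) N, (i : A) * prj h N i = h * prj h N i :=
    fun i _ => (T.h_prj i).symm
  rw [Finset.sum_congr rfl h1, ← Finset.mul_sum, T.prj_sum, mul_one]

lemma act_poly {V : Type*} [AddCommGroup V] [Module A V] {h : A} {v : V} {i : ℤ}
    (hv : h • v = i • v) (q : ℚ[X]) :
    aeval h q • v = (algebraMap ℚ A (q.eval (i : ℚ))) • v := by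
  induction q using Polynomial.induction_on' with
  | add p q hp hq => rw [map_add, add_smul, hp, hq, eval_add, map_add, add_smul]
  | monomial n c =>
    rw [aeval_monomial, eval_monomial, map_mul, mul_smul, mul_smul]
    congr 1
    induction n with
    | zero => simp
    | succ n ih =>
      rw [pow_succ', mul_smul, ih, pow_succ', map_mul, mul_smul, ← mul_smul h,
        ← Algebra.commutes, mul_smul, hv, map_intCast, Int.cast_smul_eq_zsmul,
        smul_comm]

lemma Triple.prj_act (T : Triple e f h N) {V : Type*} [AddCommGroup V] [Module A V] {v : V}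
    {i : ℤ} (hv : h • v = i • v) (j : ℤ) : prj h N j • v = if j = i then v else 0 := by
  by_cases hi : i ∈ Finset.Ioo (-N : ℤ) N
  · rw [prj, act_poly hv, eval_basis N j hi]
    split_ifs <;> simp
  · have h1 : aeval h (polP N) • v = 0 := by
      rw [T.zero (q := polP N) fun i hi => ?_, zero_smul]
      rw [polP, eval_prod]
      exact Finset.prod_eq_zero hi (by simp)
    rw [act_poly hv] at h1
    have h2 : (polP N).eval (i : ℚ) ≠ 0 := by
      rw [polP, eval_prod, Finset.prod_ne_zero_iff]
      intro l hl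
      rw [eval_sub, eval_X, eval_C, sub_ne_zero]
      intro h3
      exact hi (Int.cast_injective h3 ▸ hl)
    have h3 : v = 0 := by
      have h4 := congrArg (fun w => (algebraMap ℚ A ((polP N).eval (i : ℚ))⁻¹) • w) h1
      simp only [← mul_smul, ← map_mul, inv_mul_cancel₀ h2, map_one, one_smul, smul_zero] at h4
      exact h4
    rw [h3, smul_zero, ite_self]

lemma Triple.prj_out (T : Triple e f h N) {i : ℤ} (hi : i ∉ Finset.Ioo (-N : ℤ) N) :
    prj h N i = 0 := by
  refine T.zero fun j hj => ?_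
  rw [eval_basis N i hj, if_neg]
  rintro rfl
  exact hi hj

lemma Triple.prj_semi (T : Triple e f h N) {x : A} {c : ℤ} (hx : h * x = x * (h + c)) (i : ℤ) :
    x * prj h N i = prj h N (i + c) * x := by
  have h1 : ∀ j, h • (x * prj h N j) = (j + c) • (x * prj h N j) := by
    intro j
    rw [smul_eq_mul, ← mul_assoc, hx, mul_assoc, add_mul, T.h_prj, zsmul_eq_mul]
    push_cast
    rw [← add_mul, ← mul_assoc, ← mul_assoc]
    congr 1
    have h2 := (Int.cast_commute (j + c) x).eq
    push_cast at h2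
    exact h2.symm
  have h2 : ∀ l j, prj h N l * (x * prj h N j) = if l = j + c then x * prj h N j else 0 :=
    fun l j => T.prj_act (h1 j) l
  have h3 : prj h N (i + c) * x =
      ∑ j ∈ Finset.Ioo (-N : ℤ) N, prj h N (i + c) * (x * prj h N j) := by
    rw [← Finset.mul_sum, ← Finset.mul_sum, T.prj_sum, mul_one]
  rw [h3, Finset.sum_congr rfl fun j _ => h2 (i + c) j]
  by_cases hi : i ∈ Finset.Ioo (-N : ℤ) N
  · rw [Finset.sum_eq_single_of_mem i hi, if_pos rfl]
    intro j _ hj
    rw [if_neg]
    intro h4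
    exact hj (by omega)
  · rw [T.prj_out hi, mul_zero]
    symm
    refine Finset.sum_eq_zero fun j hj => ?_
    rw [if_neg]
    intro h4
    exact hi (by rw [show i = j by omega]; exact hj)

end

end Pool.Agent.U724.JM
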