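import Pool.Agent.U724.JM.HL

/-!
# Uniqueness of the projectors up to unipotent conjugation
-/

set_option autoImplicit false

open Polynomial

namespace Pool.Agent.U724.JM

section

variable {A : Type*} [Ring A] [Algebra ℚ A] {e f h : A} {N : ℕ}

/-- `x` raises the weight by at least `m`. -/
def Up (h : A) (N : ℕ) (m : ℤ) (x : A) : Prop := ∀ j i : ℤ, j < i + m → prj h N j * x * prj h N i = 0

lemma Up.add {m : ℤ} {x y : A} (hx : Up h N m x) (hy : Up h N m y) : Up h N m (x + y) := by
  intro j i hij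
  rw [mul_add, add_mul, hx j i hij, hy j i hij, add_zero]

lemma Up.sub {m : ℤ} {x y : A} (hx : Up h N m x) (hy : Up h N m y) : Up h N m (x - y) := by
  intro j i hij
  rw [mul_sub, sub_mul, hx j i hij, hy j i hij, sub_zero]

lemma Up.mono {m n : ℤ} (hmn : n ≤ m) {x : A} (hx : Up h N m x) : Up h N n x :=
  fun j i hij => hx j i (by omega)

lemma Up.zero (m : ℤ) : Up h N m (0 : A) := fun j i _ => by rw [mul_zero, zero_mul]

lemma Up.smul {m : ℤ} {x : A} (hx : Up h N m x) (c : ℚ) : Up h N m (c • x) := by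
  intro j i hij
  rw [mul_smul_comm, smul_mul_assoc, hx j i hij, smul_zero]

lemma Up.sum {ι : Type*} (s : Finset ι) {m : ℤ} {x : ι → A} (hx : ∀ l ∈ s, Up h N m (x l)) :
    Up h N m (∑ l ∈ s, x l) := by
  classical
  induction s using Finset.induction_on with
  | empty => exact Up.zero m
  | insert a s ha ih =>
    rw [Finset.sum_insert ha]
    exact (hx a (Finset.mem_insert_self a s)).add
      (ih fun l hl => hx l (Finset.mem_insert_of_mem hl))

lemma Up.mul (T : Triple e f h N) {m n : ℤ} {x y : A} (hx : Up h N m x) (hy : Up h N n y) :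
    Up h N (m + n) (x * y) := by
  intro j i hij
  have h1 : prj h N j * (x * y) * prj h N i =
      ∑ l ∈ Finset.Ioo (-N : ℤ) N, (prj h N j * x * prj h N l) * (prj h N l * y * prj h N i) := by
    have h2 : ∀ l ∈ Finset.Ioo (-N : ℤ) N,
        (prj h N j * x * prj h N l) * (prj h N l * y * prj h N i) =
        prj h N j * x * prj h N l * (y * prj h N i) := by
      intro l _
      have h3 := T.prj_mul l l
      rw [if_pos rfl] at h3
      calc (prj h N j * x * prj h N l) * (prj h N l * y * prj h N i)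
          = prj h N j * x * (prj h N l * prj h N l) * (y * prj h N i) := by noncomm_ring
        _ = _ := by rw [h3]
    rw [Finset.sum_congr rfl h2, ← Finset.sum_mul, ← Finset.mul_sum, T.prj_sum, mul_one]
    noncomm_ring
  rw [h1]
  refine Finset.sum_eq_zero fun l _ => ?_
  by_cases hl : j < l + m
  · rw [hx j l hl, zero_mul]
  · rw [hy l i (by omega), mul_zero]

lemma Up.one (T : Triple e f h N) : Up h N 0 (1 : A) := by
  intro j i hij
  rw [mul_one, T.prj_mul, if_neg (by omega)]

lemma Up.pow (T : Triple e f h N) {m : ℤ} {x : A} (hx : Up h N m x) (k : ℕ) :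
    Up h N (k * m) (x ^ k) := by
  induction k with
  | zero =>
    rw [pow_zero, Nat.cast_zero, zero_mul]
    exact Up.one T
  | succ k ih =>
    rw [pow_succ]
    have h1 := ih.mul T hx
    have h2 : ((k + 1 : ℕ) : ℤ) * m = k * m + m := by push_cast; ring
    rwa [h2]

lemma Up.self (T : Triple e f h N) : Up h N 0 h := by
  intro j i hij
  rw [mul_assoc, T.h_prj, ← mul_assoc, ← (Int.cast_commute i (prj h N j)).eq, mul_assoc,
    T.prj_mul, if_neg (by omega), mul_zero]

lemma Up.of_prj (T : Triple e f h N) (l : ℤ) : Up h N 0 (prj h N l) := by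
  intro j i hij
  rw [T.prj_mul]
  split_ifs with h1
  · rw [T.prj_mul, if_neg (by omega)]
  · rw [zero_mul]

lemma Up.eq_zero (T : Triple e f h N) {m : ℤ} (hm : 2 * N ≤ m) {x : A} (hx : Up h N m x) :
    x = 0 := by
  have h1 : x = ∑ j ∈ Finset.Ioo (-N : ℤ) N, ∑ i ∈ Finset.Ioo (-N : ℤ) N,
      prj h N j * x * prj h N i := by
    simp_rw [← Finset.mul_sum, T.prj_sum, mul_one, ← Finset.sum_mul, T.prj_sum, one_mul]
  rw [h1]
  refine Finset.sum_eq_zero fun j hj => Finset.sum_eq_zero fun i hi => ?_
  rw [Finset.mem_Ioo] at hj hi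
  exact hx j i (by omega)

variable {f' h' : A}

/-- The difference of the semisimple elements raises the weight. -/
lemma up_sub (T : Triple e f h N) (T' : Triple e f' h' N) : Up h N 1 (h' - h) := by
  obtain ⟨a, ha, aN⟩ : ∃ a : Module.End ℚ A, (∀ x, a x = e * x - x * e) ∧ IsNilpotent a := by
    refine ⟨LinearMap.mulLeft ℚ e - LinearMap.mulRight ℚ e, fun x => rfl, ?_⟩
    refine Commute.isNilpotent_sub (LinearMap.commute_mulLeft_right e e) ?_ ?_
    · exact ⟨N, by rw [LinearMap.pow_mulLeft, T.nil, LinearMap.mulLeft_zero_eq_zero]⟩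
    · exact ⟨N, by rw [LinearMap.pow_mulRight, T.nil, LinearMap.mulRight_zero_eq_zero]⟩
  obtain ⟨l, hl⟩ : ∃ l : Module.End ℚ A, ∀ x, l x = f * x - x * f :=
    ⟨LinearMap.mulLeft ℚ f - LinearMap.mulRight ℚ f, fun x => rfl⟩
  obtain ⟨w, hw⟩ : ∃ w : Module.End ℚ A, ∀ x, w x = h * x - x * h :=
    ⟨LinearMap.mulLeft ℚ h - LinearMap.mulRight ℚ h, fun x => rfl⟩
  have t1 := T.ef
  have t2 := T.he
  have t1' := T'.ef
  have t2' := T'.he
  have e1 : a * l = l * a + w := by
    ext x
    rw [Module.End.mul_apply, LinearMap.add_apply, Module.End.mul_apply, ha, hl, hl, ha, hw]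
    linear_combination (norm := noncomm_ring) t1 * x - x * t1
  have e2 : w * a = a * w + 2 * a := by
    ext x
    have h5 : (2 * a : Module.End ℚ A) = a + a := two_mul a
    rw [h5, Module.End.mul_apply, LinearMap.add_apply, LinearMap.add_apply, Module.End.mul_apply,
      hw, ha, ha, hw]
    linear_combination (norm := noncomm_ring) t2 * x - x * t2
  obtain ⟨M, hM⟩ := aN
  have h5 : a (f' - f) = h' - h := by
    rw [ha]
    linear_combination (norm := noncomm_ring) t1' - t1
  have h6 : a (h' - h) = 0 := by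
    rw [ha]
    linear_combination (norm := noncomm_ring) t2 - t2'
  have h8 : a ^ (1 + 1) • (f' - f) = 0 := by
    rw [pow_succ, pow_one]
    change a (a (f' - f)) = 0
    rw [h5, h6]
  have h9 := prod_kills e1 e2 hM (k := 1) h8
  rw [pow_one] at h9
  have h10 : a • (f' - f) = h' - h := h5
  rw [h10] at h9
  set q : ℚ[X] := ∏ i ∈ Finset.Ico 1 M, (X - C (i : ℚ)) with hq
  have h11 : aeval w q (h' - h) = 0 := h9
  intro j i hij
  obtain ⟨Φ, hΦ⟩ : ∃ Φ : Module.End ℚ A, ∀ x, Φ x = prj h N j * x * prj h N i :=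
    ⟨LinearMap.mulRight ℚ (prj h N i) * LinearMap.mulLeft ℚ (prj h N j), fun x => rfl⟩
  have h12 : Φ * w = (algebraMap ℚ (Module.End ℚ A) ((j - i : ℤ) : ℚ)) * Φ := by
    ext x
    rw [Module.End.mul_apply, Module.End.mul_apply, hw, hΦ, hΦ, Module.algebraMap_end_apply]
    have h13 : prj h N j * h = (j : A) * prj h N j := by
      have h14 : h * prj h N j = prj h N j * h := by
        rw [prj]
        have h16 : ∀ q : ℚ[X], h * aeval h q = aeval h q * h := by
          intro q
          have h17 : aeval h (X * q) = aeval h (q * X) := by rw [mul_comm]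
          rwa [map_mul, map_mul, aeval_X] at h17
        exact h16 _
      rw [← h14, T.h_prj]
    have h14 := T.h_prj i
    have h15 : (((j - i : ℤ) : ℚ) • (prj h N j * x * prj h N i) : A) =
        (j - i : ℤ) • (prj h N j * x * prj h N i) := by
      rw [Int.cast_smul_eq_zsmul]
    rw [h15, zsmul_eq_mul]
    push_cast
    have h16 := (Int.cast_commute i (prj h N j * x)).eq
    calc prj h N j * (h * x - x * h) * prj h N i
        = (prj h N j * h) * x * prj h N i - prj h N j * x * (h * prj h N i) := by noncomm_ring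
      _ = (j : A) * prj h N j * x * prj h N i -
          ((prj h N j * x) * (i : A)) * prj h N i := by rw [h13, h14]; noncomm_ring
      _ = _ := by rw [← h16]; noncomm_ring
  have h13 := congrArg (fun g : Module.End ℚ A => g (h' - h)) (semi h12 q)
  simp only [Module.End.mul_apply, h11, map_zero] at h13
  rw [aeval_algebraMap_apply, Module.algebraMap_end_apply, hΦ] at h13
  have hc0 : aeval ((j - i : ℤ) : ℚ) q ≠ 0 := by
    rw [coe_aeval_eq_eval, hq, eval_prod, Finset.prod_ne_zero_iff]
    intro l hl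
    rw [Finset.mem_Ico] at hl
    rw [eval_sub, eval_X, eval_C, sub_ne_zero]
    intro h0
    have h1 : (j - i : ℤ) = (l : ℤ) := by exact_mod_cast h0
    omega
  exact (smul_eq_zero.1 h13.symm).resolve_left hc0

lemma up_poly (T : Triple e f h N) (T' : Triple e f' h' N) (q : ℚ[X]) :
    Up h N 1 (aeval h' q - aeval h q) := by
  induction q using Polynomial.induction_on' with
  | add p q hp hq =>
    rw [map_add, map_add, add_sub_add_comm]
    exact hp.add hq
  | monomial n c =>
    rw [aeval_monomial, aeval_monomial, ← Algebra.smul_def, ← Algebra.smul_def, ← smul_sub]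
    refine Up.smul ?_ c
    have h0 : Up h N 0 h' := by
      have h1 := ((up_sub T T').mono (n := 0) (by norm_num)).add (Up.self T)
      rwa [sub_add_cancel] at h1
    induction n with
    | zero =>
      rw [pow_zero, pow_zero, sub_self]
      exact Up.zero 1
    | succ n ih =>
      have h1 : h' ^ (n + 1) - h ^ (n + 1) = h' ^ n * (h' - h) + (h' ^ n - h ^ n) * h := by
        rw [pow_succ, pow_succ]
        noncomm_ring
      rw [h1]
      have h2 := (h0.pow T n).mul T (up_sub T T')
      rw [mul_zero, zero_add] at h2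
      have h3 := ih.mul T (Up.self T)
      rw [add_zero] at h3
      exact h2.add h3

/-- The uniqueness up to unipotent conjugation. -/
theorem conj (T : Triple e f h N) (T' : Triple e f' h' N) :
    ∃ ν : A, Up h N 1 ν ∧ ν ^ (2 * N) = 0 ∧ (1 + ν) * e = e * (1 + ν) ∧
      ∀ i, (1 + ν) * prj h N i = prj h' N i * (1 + ν) := by
  let u : A := ∑ i ∈ Finset.Ioo (-N : ℤ) N, prj h' N i * prj h N i
  have hu : Up h N 1 (u - 1) := by
    have h1 : u - 1 = ∑ i ∈ Finset.Ioo (-N : ℤ) N, (prj h' N i - prj h N i) * prj h N i := by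
      have h2 : (1 : A) = ∑ i ∈ Finset.Ioo (-N : ℤ) N, prj h N i * prj h N i := by
        rw [← T.prj_sum]
        refine Finset.sum_congr rfl fun i _ => ?_
        rw [T.prj_mul, if_pos rfl]
      rw [h2, ← Finset.sum_sub_distrib]
      exact Finset.sum_congr rfl fun i _ => (sub_mul _ _ _).symm
    rw [h1]
    refine Up.sum _ fun i _ => ?_
    have h2 := (up_poly T T' (Lagrange.basis (Finset.Ioo (-N : ℤ) N)
      (fun j : ℤ => (j : ℚ)) i)).mul T (Up.of_prj T i)
    rw [add_zero] at h2
    exact h2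
  have h1 : ∀ i, u * prj h N i = prj h' N i * u := by
    intro i
    by_cases hi : i ∈ Finset.Ioo (-N : ℤ) N
    · rw [Finset.sum_mul, Finset.mul_sum, Finset.sum_eq_single_of_mem i hi,
        Finset.sum_eq_single_of_mem i hi]
      · rw [mul_assoc, T.prj_mul, if_pos rfl, ← mul_assoc, T'.prj_mul, if_pos rfl]
      · intro j _ hj
        rw [← mul_assoc, T'.prj_mul, if_neg (Ne.symm hj), zero_mul]
      · intro j _ hj
        rw [mul_assoc, T.prj_mul, if_neg hj, mul_zero]
    · rw [T.prj_out hi, T'.prj_out hi, mul_zero, zero_mul]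
  refine ⟨u - 1, hu, ?_, ?_, ?_⟩
  · refine Up.eq_zero T (m := ((2 * N : ℕ) : ℤ) * 1) ?_ (hu.pow T (2 * N))
    push_cast
    linarith
  · rw [add_sub_cancel]
    have h2 : ∀ i, e * prj h N i = prj h N (i + 2) * e :=
      T.prj_semi (c := 2) (by rw [T.he]; push_cast; noncomm_ring)
    have h3 : ∀ i, e * prj h' N i = prj h' N (i + 2) * e :=
      T'.prj_semi (c := 2) (by rw [T'.he]; push_cast; noncomm_ring)
    have h4 : ∀ i, prj h' N i * prj h N i * e = e * (prj h' N (i - 2) * prj h N (i - 2)) := by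
      intro i
      have h2' := h2 (i - 2)
      have h3' := h3 (i - 2)
      rw [show i - 2 + 2 = i by ring] at h2' h3'
      rw [mul_assoc, ← h2', ← mul_assoc, ← h3', mul_assoc]
    have h5 : ∀ s : Finset ℤ, Finset.Ioo (-N : ℤ) N ⊆ s →
        u = ∑ i ∈ s, prj h' N i * prj h N i := by
      intro s hs
      refine Finset.sum_subset hs fun i _ hi => ?_
      rw [T.prj_out hi, mul_zero]
    have h6 : u * e = ∑ i ∈ Finset.Ioo (-N : ℤ) (N + 2), prj h' N i * prj h N i * e := by
      rw [h5 (Finset.Ioo (-N : ℤ) (N + 2)) (fun i hi => by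
        rw [Finset.mem_Ioo] at hi ⊢; omega), Finset.sum_mul]
    have h7 : e * u = ∑ i ∈ Finset.Ioo (-N - 2 : ℤ) N, e * (prj h' N i * prj h N i) := by
      rw [h5 (Finset.Ioo (-N - 2 : ℤ) N) (fun i hi => by
        rw [Finset.mem_Ioo] at hi ⊢; omega), Finset.mul_sum]
    rw [h6, h7, Finset.sum_congr rfl fun i _ => h4 i]
    refine Finset.sum_bij (fun i _ => i - 2) ?_ ?_ ?_ ?_
    · intro i hi
      rw [Finset.mem_Ioo] at hi ⊢
      omega
    · intro i _ j _ hij
      simpa using hij
    · intro i hi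
      refine ⟨i + 2, ?_, by ring⟩
      rw [Finset.mem_Ioo] at hi ⊢
      omega
    · intro i _
      rfl
  · rw [add_sub_cancel]
    exact h1

end

end Pool.Agent.U724.JM
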